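import Pool.Agent.LevelLat.Basic

/-!
# A small block exchange system: 4 + 4 curves, 9 exchanges
-/

namespace LevelLat

/-- the sets of curves above the gap, as bit masks -/
def tb (t : ℕ) : ℕ := [240, 232, 216, 204, 202, 201, 195, 139, 135, 15].getD t 15

/-- bit of a curve -/
def bt (v : V) : ℕ := if v.1 then 4 + v.2 else 3 - v.2

/-- statuses -/
def bx (t : ℕ) (v : V) : ℤ := if (tb t).testBit (bt v) then 1 else 0

theorem pr_dec' : ∀ p q : Fin 8, ∀ t' t : Fin 10, ¬ ((t : ℕ) ≤ t' ∧ (p : ℕ) < q ∧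
    (tb t).testBit q = false ∧ (tb t).testBit p = true ∧ (tb t').testBit q = true ∧
    (tb t').testBit p = false) := by
  decide

theorem pr_dec {p q t' t : ℕ} (hp : p < 8) (hq : q < 8) (ht' : t' < 10) (ht : t ≤ t')
    (h : p < q) (h1 : (tb t).testBit q = false) (h2 : (tb t).testBit p = true)
    (h3 : (tb t').testBit q = true) (h4 : (tb t').testBit p = false) : False :=
  pr_dec' ⟨p, hp⟩ ⟨q, hq⟩ ⟨t', ht'⟩ ⟨t, by omega⟩ ⟨ht, h, h1, h2, h3, h4⟩

theorem ex_dec : ∀ t < 9, ∃ p < 8, ∃ q < 8, (tb t).testBit p = false ∧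
    (tb (t + 1)).testBit p = true ∧ (tb t).testBit q = true ∧ (tb (t + 1)).testBit q = false ∧
    ∀ r < 8, r ≠ p → r ≠ q → (tb (t + 1)).testBit r = (tb t).testBit r := by
  decide

theorem ini_dec : ∀ r < 8, (tb 0).testBit r = decide (4 ≤ r) := by decide

theorem fin_dec : ∀ r < 8, (tb 9).testBit r = decide (r < 4) := by decide

theorem bt_lt {v : V} (h : v.2 < 4) : bt v < 8 := by
  unfold bt
  split_ifs <;> omega

theorem bt_surj {r : ℕ} (hr : r < 8) : ∃ v : V, v.2 < 4 ∧ bt v = r := by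
  rcases Nat.lt_or_ge r 4 with h | h
  · exact ⟨(false, 3 - r), by dsimp only; omega, by simp only [bt, Bool.false_eq_true, if_false]; omega⟩
  · exact ⟨(true, r - 4), by dsimp only; omega, by simp only [bt, if_true]; omega⟩

theorem bt_inj {u v : V} (hu : u.2 < 4) (hv : v.2 < 4) (h : bt u = bt v) : u = v := by
  obtain ⟨b, i⟩ := u
  obtain ⟨b', j⟩ := v
  cases b <;> cases b' <;> simp [bt] at h hu hv ⊢ <;> omega

theorem bt_pos {u v : V} (hu : u.2 < 4) (hv : v.2 < 4) (h : pos u < pos v) : bt u < bt v := by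
  obtain ⟨b, i⟩ := u
  obtain ⟨b', j⟩ := v
  cases b <;> cases b' <;> simp [bt, pos] at h hu hv ⊢ <;> omega

theorem hasZig_base : HasZig 4 9 9 (fun _ _ => True) := by
  refine ⟨bx, fun t => t, ?_, ?_, ?_, ?_, ?_, ?_, ?_, ?_⟩
  · intro t v
    unfold bx
    split_ifs <;> simp
  · intro v hv
    unfold bx
    rw [ini_dec _ (bt_lt hv)]
    obtain ⟨b, i⟩ := v
    cases b <;> simp [bt] at hv ⊢
    omega
  · intro v hv
    unfold bx
    rw [fin_dec _ (bt_lt hv)]
    obtain ⟨b, i⟩ := v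
    cases b <;> simp [bt] at hv ⊢
    omega
  · intro t ht
    obtain ⟨p, hp, q, hq, h1, h2, h3, h4, h5⟩ := ex_dec t ht
    obtain ⟨u, hu, rfl⟩ := bt_surj hp
    obtain ⟨d, hd, rfl⟩ := bt_surj hq
    refine ⟨u, d, hu, hd, by simp [bx, h1], by simp [bx, h2], by simp [bx, h3], by simp [bx, h4],
      ?_⟩
    intro v hv n1 n2
    unfold bx
    rw [h5 _ (bt_lt hv) (fun h => n1 (bt_inj hv hu h)) (fun h => n2 (bt_inj hv hd h))]
  · intro u v hu hv hpos t t' htt ht' hneg
    by_contra hcon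
    unfold bx at hneg hcon
    dsimp only at hneg hcon
    have k1 : (tb t).testBit (bt v) = false ∧ (tb t).testBit (bt u) = true := by
      cases h1 : (tb t).testBit (bt v) <;> cases h2 : (tb t).testBit (bt u) <;>
        simp [h1, h2] at hneg ⊢
    have k2 : (tb t').testBit (bt v) = true ∧ (tb t').testBit (bt u) = false := by
      cases h1 : (tb t').testBit (bt v) <;> cases h2 : (tb t').testBit (bt u) <;>
        simp [h1, h2] at hcon ⊢
    exact pr_dec (bt_lt hu) (bt_lt hv) (by omega) htt (bt_pos hu hv hpos) k1.1 k1.2 k2.1 k2.2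
  · intro u v _ _ _ _ hJ
    exact absurd trivial hJ
  · intro t ht
    exact ht
  · intro t t' h _ _ _ _ _
    exact h

end LevelLat
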