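import Mathlib

/-!
# Block exchange systems in which every pair changes its order at most once

A curve is a pair `(side, index)`: side `false` = below the gap at the start, side `true` = above
the gap at the start, the index is the distance from the gap.
-/

namespace LevelLat

/-- curves: side and distance from the gap -/
abbrev V := Bool × ℕ

/-- the initial height -/
def pos (v : V) : ℤ := if v.1 then (v.2 : ℤ) else -1 - (v.2 : ℤ)

/-- once negative, never positive again -/
def Nup (f : ℕ → ℤ) (N : ℕ) : Prop := ∀ t t', t ≤ t' → t' ≤ N → f t < 0 → f t' ≤ 0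

/-- A block exchange system with `m` curves on either side of the gap and `N` exchanges; at the end
the two sides have been interchanged. Every pair changes its order at most once, pairs on one side
which are not related by `J` do not change it at all. The clock `k` increases along the exchanges
of every curve. -/
structure Zig (m N D : ℕ) (J : ℕ → ℕ → Prop) (x : ℕ → V → ℤ) (k : ℕ → ℕ) : Prop where
  h01 : ∀ t v, x t v = 0 ∨ x t v = 1
  ini : ∀ v : V, v.2 < m → x 0 v = if v.1 then 1 else 0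
  fin : ∀ v : V, v.2 < m → x N v = if v.1 then 0 else 1
  exch : ∀ t < N, ∃ u d : V, u.2 < m ∧ d.2 < m ∧ x t u = 0 ∧ x (t + 1) u = 1 ∧ x t d = 1 ∧
    x (t + 1) d = 0 ∧ ∀ v : V, v.2 < m → v ≠ u → v ≠ d → x (t + 1) v = x t v
  pr : ∀ u v : V, u.2 < m → v.2 < m → pos u < pos v → Nup (fun t => x t v - x t u) N
  nj : ∀ u v : V, u.2 < m → v.2 < m → u.1 = v.1 → pos u < pos v → ¬ J u.2 v.2 →
    ∀ t ≤ N, x t u ≤ x t v
  clk : ∀ t < N, k t < D
  inc : ∀ t t', t < t' → t' < N → ∀ v : V, v.2 < m → x t v ≠ x (t + 1) v →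
    x t' v ≠ x (t' + 1) v → k t < k t'

/-- existence of a block exchange system -/
def HasZig (m N D : ℕ) (J : ℕ → ℕ → Prop) : Prop := ∃ x k, Zig m N D J x k

theorem HasZig.mono {m N D D' : ℕ} {J J' : ℕ → ℕ → Prop} (h : HasZig m N D J) (hD : D ≤ D')
    (hJ : ∀ i j, i < m → j < m → J i j → J' i j) : HasZig m N D' J' := by
  obtain ⟨x, k, h⟩ := h
  refine ⟨x, k, h.h01, h.ini, h.fin, h.exch, h.pr, fun u v hu hv h1 h2 h3 => h.nj u v hu hv h1 h2
    (fun h4 => h3 (hJ _ _ hu hv h4)), fun t ht => (h.clk t ht).trans_le hD, h.inc⟩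

theorem hasZig_zero (D : ℕ) (J : ℕ → ℕ → Prop) : HasZig 0 0 D J :=
  ⟨fun _ _ => 0, fun _ => 0, fun _ _ => Or.inl rfl, fun v hv => by omega, fun v hv => by omega,
    fun t ht => by omega, fun u v hu => by omega, fun u v hu => by omega, fun t ht => by omega,
    fun t t' _ ht => by omega⟩

/-- one single exchange -/
theorem hasZig_one : HasZig 1 1 1 (fun _ _ => False) := by
  refine ⟨fun t v => if t = 0 then (if v.1 then 1 else 0) else (if v.1 then 0 else 1), fun _ => 0,
    ?_, ?_, ?_, ?_, ?_, ?_, ?_, ?_⟩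
  · intro t v
    by_cases h : t = 0 <;> cases v.1 <;> simp [h]
  · intro v _
    simp
  · intro v _
    simp
  · intro t ht
    obtain rfl : t = 0 := by omega
    refine ⟨(false, 0), (true, 0), by simp, by simp, by simp, by simp, by simp, by simp, ?_⟩
    rintro ⟨b, i⟩ hi h1 h2
    obtain rfl : i = 0 := by simpa using hi
    cases b <;> simp_all
  · rintro ⟨b, i⟩ ⟨b', i'⟩ hi hi' hp t t' htt ht' hneg
    obtain rfl : i = 0 := by simpa using hi
    obtain rfl : i' = 0 := by simpa using hi'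
    cases b <;> cases b' <;> simp [pos] at hp
    dsimp only at hneg ⊢
    have : t ≠ 0 := by
      rintro rfl
      simp at hneg
    have h' : t' ≠ 0 := by omega
    simp [h']
  · rintro ⟨b, i⟩ ⟨b', i'⟩ hi hi' hbb hp
    obtain rfl : i = 0 := by simpa using hi
    obtain rfl : i' = 0 := by simpa using hi'
    dsimp only at hbb
    subst hbb
    simp at hp
  · intro t _
    omega
  · intro t t' htt ht'
    omega

theorem pos_lt_iff {u v : V} (h : u.1 = v.1) : pos u < pos v ↔
    (v.1 = true ∧ u.2 < v.2) ∨ (v.1 = false ∧ v.2 < u.2) := by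
  obtain ⟨b, i⟩ := u
  obtain ⟨b', j⟩ := v
  dsimp only at h
  subst h
  cases b <;> simp [pos]

theorem pos_cross {u v : V} (h : u.1 ≠ v.1) : pos u < pos v ↔ v.1 = true := by
  obtain ⟨b, i⟩ := u
  obtain ⟨b', j⟩ := v
  cases b <;> cases b' <;> simp [pos] at h ⊢
  · omega
  · omega

theorem pos_mk_lt {b : Bool} {i j : ℕ} : pos (b, i) < pos (b, j) ↔
    (b = true ∧ i < j) ∨ (b = false ∧ j < i) := pos_lt_iff (u := (b, i)) (v := (b, j)) rfl

/-- relation of the sum -/
def Jsum (m₁ : ℕ) (J₁ J₂ : ℕ → ℕ → Prop) (i j : ℕ) : Prop :=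
  (i < m₁ ∧ j < m₁ ∧ J₁ i j) ∨ (m₁ ≤ i ∧ m₁ ≤ j ∧ J₂ (i - m₁) (j - m₁))

/-- statuses of the sum -/
def sx (m₁ N₁ : ℕ) (x₁ x₂ : ℕ → V → ℤ) (t : ℕ) (v : V) : ℤ :=
  if v.2 < m₁ then x₁ (min t N₁) v else x₂ (t - N₁) (v.1, v.2 - m₁)

theorem sx_lt {m₁ N₁ : ℕ} {x₁ x₂ : ℕ → V → ℤ} {v : V} (h : v.2 < m₁) (t : ℕ) :
    sx m₁ N₁ x₁ x₂ t v = x₁ (min t N₁) v := if_pos h

theorem sx_ge {m₁ N₁ : ℕ} {x₁ x₂ : ℕ → V → ℤ} {v : V} (h : m₁ ≤ v.2) (t : ℕ) :
    sx m₁ N₁ x₁ x₂ t v = x₂ (t - N₁) (v.1, v.2 - m₁) := if_neg (by omega)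

theorem pos_shift {m₁ : ℕ} {u v : V} (hu : m₁ ≤ u.2) (hv : m₁ ≤ v.2) (h : pos u < pos v) :
    pos (u.1, u.2 - m₁) < pos (v.1, v.2 - m₁) := by
  obtain ⟨b, i⟩ := u
  obtain ⟨b', j⟩ := v
  cases b <;> cases b' <;> simp [pos] at h hu hv ⊢ <;> omega

/-- first the curves near the gap, then the others -/
theorem HasZig.sum {m₁ N₁ m₂ N₂ D : ℕ} {J₁ J₂ : ℕ → ℕ → Prop} (h₁ : HasZig m₁ N₁ D J₁)
    (h₂ : HasZig m₂ N₂ D J₂) : HasZig (m₁ + m₂) (N₁ + N₂) D (Jsum m₁ J₁ J₂) := by
  obtain ⟨x₁, k₁, h₁⟩ := h₁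
  obtain ⟨x₂, k₂, h₂⟩ := h₂
  -- a curve of the second part has not moved before `N₁`
  have late : ∀ t ≤ N₁, ∀ v : V, m₁ ≤ v.2 → v.2 < m₁ + m₂ →
      sx m₁ N₁ x₁ x₂ t v = if v.1 then 1 else 0 := by
    intro t ht v hv hv'
    rw [sx_ge hv, show t - N₁ = 0 by omega, h₂.ini (v.1, v.2 - m₁) (by dsimp only; omega)]
  -- a curve of the first part does not move after `N₁`
  have early : ∀ t, N₁ ≤ t → ∀ v : V, v.2 < m₁ →
      sx m₁ N₁ x₁ x₂ t v = if v.1 then 0 else 1 := by
    intro t ht v hv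
    rw [sx_lt hv, show min t N₁ = N₁ by omega, h₁.fin v hv]
  have s01 : ∀ t v, sx m₁ N₁ x₁ x₂ t v = 0 ∨ sx m₁ N₁ x₁ x₂ t v = 1 := by
    intro t v
    unfold sx
    split_ifs
    · exact h₁.h01 _ _
    · exact h₂.h01 _ _
  -- mixed pairs
  have mixs : ∀ u v : V, u.2 < m₁ + m₂ → v.2 < m₁ + m₂ → u.1 = v.1 → pos u < pos v →
      ¬ (u.2 < m₁ ∧ v.2 < m₁) → ¬ (m₁ ≤ u.2 ∧ m₁ ≤ v.2) → ∀ t,
      sx m₁ N₁ x₁ x₂ t u ≤ sx m₁ N₁ x₁ x₂ t v := by
    intro u v hu hv hs hp n1 n2 t
    rcases (pos_lt_iff hs).1 hp with ⟨h3, h4⟩ | ⟨h3, h4⟩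
    · -- above the gap: `u` in the first part
      have a1 : u.2 < m₁ := by omega
      have a2 : m₁ ≤ v.2 := by omega
      rcases le_total t N₁ with ht | ht
      · rw [late t ht v a2 hv, h3]
        rcases s01 t u with h | h <;> simp [h]
      · rw [early t ht u a1, hs, h3]
        rcases s01 t v with h | h <;> simp [h]
    · have a1 : v.2 < m₁ := by omega
      have a2 : m₁ ≤ u.2 := by omega
      rcases le_total t N₁ with ht | ht
      · rw [late t ht u a2 hu, hs, h3]
        rcases s01 t v with h | h <;> simp [h]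
      · rw [early t ht v a1, h3]
        rcases s01 t u with h | h <;> simp [h]
  refine ⟨sx m₁ N₁ x₁ x₂, fun t => if t < N₁ then k₁ t else k₂ (t - N₁), s01, ?_, ?_, ?_, ?_, ?_,
    ?_, ?_⟩
  · intro v hv
    rcases lt_or_ge v.2 m₁ with h | h
    · rw [sx_lt h, Nat.zero_min, h₁.ini v h]
    · exact late 0 (by omega) v h hv
  · intro v hv
    rcases lt_or_ge v.2 m₁ with h | h
    · exact early _ (by omega) v h
    · rw [sx_ge h, show N₁ + N₂ - N₁ = N₂ by omega, h₂.fin (v.1, v.2 - m₁) (by dsimp only; omega)]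
  · intro t ht
    rcases lt_or_ge t N₁ with h | h
    · obtain ⟨u, d, hu, hd, h3, h4, h5, h6, h7⟩ := h₁.exch t h
      have e1 : min t N₁ = t := by omega
      have e2 : min (t + 1) N₁ = t + 1 := by omega
      refine ⟨u, d, by omega, by omega, ?_, ?_, ?_, ?_, ?_⟩
      · rw [sx_lt hu, e1, h3]
      · rw [sx_lt hu, e2, h4]
      · rw [sx_lt hd, e1, h5]
      · rw [sx_lt hd, e2, h6]
      · intro v hv n1 n2
        rcases lt_or_ge v.2 m₁ with h' | h'
        · rw [sx_lt h', sx_lt h', e1, e2]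
          exact h7 v h' n1 n2
        · rw [late _ (by omega) v h' hv, late _ h.le v h' hv]
    · obtain ⟨u, d, hu, hd, h3, h4, h5, h6, h7⟩ := h₂.exch (t - N₁) (by omega)
      have e2 : t + 1 - N₁ = t - N₁ + 1 := by omega
      have f1 : ∀ (w : V), ((w.1, w.2 + m₁) : V).2 < m₁ → False := fun w hw => by
        dsimp only at hw; omega
      have f2 : ∀ (w : V) (t : ℕ), sx m₁ N₁ x₁ x₂ t (w.1, w.2 + m₁) = x₂ (t - N₁) w := by
        intro w t
        rw [sx_ge (by dsimp only; omega)]
        simp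
      refine ⟨(u.1, u.2 + m₁), (d.1, d.2 + m₁), by dsimp only; omega, by dsimp only; omega,
        ?_, ?_, ?_, ?_, ?_⟩
      · rw [f2, h3]
      · rw [f2, e2, h4]
      · rw [f2, h5]
      · rw [f2, e2, h6]
      · intro v hv n1 n2
        rcases lt_or_ge v.2 m₁ with h' | h'
        · rw [early _ (by omega) v h', early _ h v h']
        · rw [sx_ge h', sx_ge h', e2]
          refine h7 _ (by dsimp only; omega) ?_ ?_
          · intro hh
            apply n1
            rw [← hh]
            ext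
            · rfl
            · dsimp only; omega
          · intro hh
            apply n2
            rw [← hh]
            ext
            · rfl
            · dsimp only; omega
  · intro u v hu hv hp
    by_cases c1 : u.2 < m₁ ∧ v.2 < m₁
    · intro t t' htt ht' hneg
      have := h₁.pr u v c1.1 c1.2 hp (min t N₁) (min t' N₁) (by omega) (by omega)
      simp only [sx_lt c1.1, sx_lt c1.2] at hneg ⊢
      exact this hneg
    by_cases c2 : m₁ ≤ u.2 ∧ m₁ ≤ v.2
    · intro t t' htt ht' hneg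
      have := h₂.pr (u.1, u.2 - m₁) (v.1, v.2 - m₁) (by dsimp only; omega) (by dsimp only; omega)
        (pos_shift c2.1 c2.2 hp) (t - N₁) (t' - N₁) (by omega) (by omega)
      simp only [sx_ge c2.1, sx_ge c2.2] at hneg ⊢
      exact this hneg
    by_cases hs : u.1 = v.1
    · intro t t' htt ht' hneg
      have := mixs u v hu hv hs hp c1 c2 t
      dsimp only at hneg
      omega
    · have hv1 := (pos_cross hs).1 hp
      have hu1 : u.1 = false := by
        rw [hv1] at hs
        simpa using hs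
      intro t t' htt ht' hneg
      dsimp only at hneg ⊢
      have b1 := s01 t v
      have b2 := s01 t u
      have b3 := s01 t' v
      have b4 := s01 t' u
      rcases lt_or_ge u.2 m₁ with h | h
      · have h' : m₁ ≤ v.2 := by
          by_contra hc
          exact c1 ⟨h, by omega⟩
        rcases le_total t N₁ with ht | ht
        · rw [late t ht v h' hv, hv1] at hneg
          simp only [if_true] at hneg
          omega
        · rw [early t' (by omega) u h, hu1]
          simp only [Bool.false_eq_true, if_false]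
          omega
      · have h' : v.2 < m₁ := by
          by_contra hc
          exact c2 ⟨h, by omega⟩
        rcases le_total t N₁ with ht | ht
        · rw [late t ht u h hu, hu1] at hneg
          simp only [Bool.false_eq_true, if_false] at hneg
          omega
        · rw [early t' (by omega) v h', hv1]
          simp only [if_true]
          omega
  · intro u v hu hv hs hp hJ t ht
    by_cases c1 : u.2 < m₁ ∧ v.2 < m₁
    · rw [sx_lt c1.1, sx_lt c1.2]
      exact h₁.nj u v c1.1 c1.2 hs hp (fun h => hJ (Or.inl ⟨c1.1, c1.2, h⟩)) _ (by omega)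
    by_cases c2 : m₁ ≤ u.2 ∧ m₁ ≤ v.2
    · rw [sx_ge c2.1, sx_ge c2.2]
      exact h₂.nj (u.1, u.2 - m₁) (v.1, v.2 - m₁) (by dsimp only; omega) (by dsimp only; omega)
        hs (pos_shift c2.1 c2.2 hp) (fun h => hJ (Or.inr ⟨c2.1, c2.2, h⟩)) _ (by omega)
    exact mixs u v hu hv hs hp c1 c2 t
  · intro t ht
    split_ifs with h
    · exact h₁.clk t h
    · exact h₂.clk _ (by omega)
  · intro t t' htt ht' v hv c1 c2
    rcases lt_or_ge v.2 m₁ with h | h
    · have h3 : t < N₁ := by
        by_contra hc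
        exact c1 (by rw [early _ (by omega) v h, early _ (by omega) v h])
      have h4 : t' < N₁ := by
        by_contra hc
        exact c2 (by rw [early _ (by omega) v h, early _ (by omega) v h])
      simp only [h3, h4, if_true]
      refine h₁.inc t t' htt h4 v h ?_ ?_
      · rw [sx_lt h, sx_lt h] at c1
        rwa [show min t N₁ = t by omega, show min (t + 1) N₁ = t + 1 by omega] at c1
      · rw [sx_lt h, sx_lt h] at c2
        rwa [show min t' N₁ = t' by omega, show min (t' + 1) N₁ = t' + 1 by omega] at c2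
    · have h3 : N₁ ≤ t := by
        by_contra hc
        exact c1 (by rw [late _ (by omega) v h hv, late _ (by omega) v h hv])
      have h4 : N₁ ≤ t' := by omega
      rw [if_neg (by omega), if_neg (by omega)]
      refine h₂.inc (t - N₁) (t' - N₁) (by omega) (by omega) (v.1, v.2 - m₁)
        (by dsimp only; omega) ?_ ?_
      · rw [sx_ge h, sx_ge h] at c1
        rwa [show t + 1 - N₁ = t - N₁ + 1 by omega] at c1
      · rw [sx_ge h, sx_ge h] at c2
        rwa [show t' + 1 - N₁ = t' - N₁ + 1 by omega] at c2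

/-- `q` single exchanges -/
theorem hasZig_singles (q : ℕ) : HasZig q q 1 (fun _ _ => False) := by
  induction q with
  | zero => exact hasZig_zero 1 _
  | succ q ih =>
    refine (ih.sum hasZig_one).mono le_rfl ?_
    intro i j _ _ h
    rcases h with ⟨_, _, h⟩ | ⟨_, _, h⟩ <;> exact h

/-- `M` copies of a system -/
theorem HasZig.copies {g T D : ℕ} {J : ℕ → ℕ → Prop} (h : HasZig g T D J) (M : ℕ) :
    HasZig (M * g) (M * T) D (fun i j => ∃ k < M, k * g ≤ i ∧ i < k * g + g ∧ k * g ≤ j ∧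
      j < k * g + g) := by
  induction M with
  | zero =>
    simp only [Nat.zero_mul]
    exact hasZig_zero D _
  | succ M ih =>
    have := (ih.sum h).mono le_rfl (J' := fun i j => ∃ k < M + 1, k * g ≤ i ∧ i < k * g + g ∧
      k * g ≤ j ∧ j < k * g + g) ?_
    · rwa [Nat.succ_mul, Nat.succ_mul]
    · rintro i j hi hj (⟨_, _, k, hk, h1⟩ | ⟨h1, h2, _⟩)
      · exact ⟨k, by omega, h1⟩
      · exact ⟨M, by omega, h1, by omega, h2, by omega⟩

/-- the block exchange pattern: `Q` single exchanges, `M` copies of a system, `Q` single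
exchanges -/
theorem HasZig.pattern {g T D : ℕ} {J : ℕ → ℕ → Prop} (h : HasZig g T D J) (hD : 1 ≤ D)
    (M Q : ℕ) :
    HasZig (Q + M * g + Q) (Q + M * T + Q) D (fun i j => ∃ k < M, Q + k * g ≤ i ∧
      i < Q + k * g + g ∧ Q + k * g ≤ j ∧ j < Q + k * g + g) := by
  have h0 := (hasZig_singles Q).mono hD (J' := fun _ _ => False) (fun _ _ _ _ h => h)
  refine ((h0.sum (h.copies M)).sum h0).mono le_rfl ?_
  rintro i j hi hj (⟨h1, h2, ⟨_, _, h3⟩ | ⟨h3, h4, k, hk, h5, h6, h7, h8⟩⟩ | ⟨_, _, h3⟩)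
  · exact h3.elim
  · exact ⟨k, hk, by omega, by omega, by omega, by omega⟩
  · exact h3.elim

end LevelLat
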