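import Mathlib

/-!
# Ranks in the lattice bundle
-/

namespace LevelLat

section rank

variable {E : Type} [Fintype E] {H : E → ℕ}

/-- the number of elements below `e` -/
noncomputable def rk (H : E → ℕ) (e : E) : ℕ :=
  (Finset.univ.filter (fun e' => H e' < H e)).card

theorem rk_mono {e e' : E} (h : H e ≤ H e') : rk H e ≤ rk H e' := by
  refine Finset.card_le_card ?_
  intro z hz
  simp only [Finset.mem_filter, Finset.mem_univ, true_and] at hz ⊢
  omega

theorem rk_strict {e e' : E} (h : H e < H e') : rk H e < rk H e' := by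
  refine Finset.card_lt_card ?_
  rw [Finset.ssubset_iff_of_subset]
  · exact ⟨e, by simpa using h, by simp⟩
  · intro z hz
    simp only [Finset.mem_filter, Finset.mem_univ, true_and] at hz ⊢
    omega

theorem rk_lt_iff {e e' : E} : rk H e < rk H e' ↔ H e < H e' := by
  constructor
  · intro h
    by_contra hc
    have := rk_mono (H := H) (e := e') (e' := e) (by omega)
    omega
  · exact rk_strict

theorem rk_lt_card (e : E) : rk H e < Fintype.card E := by
  refine Finset.card_lt_card ?_
  rw [Finset.ssubset_iff_of_subset (Finset.subset_univ _)]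
  exact ⟨e, Finset.mem_univ _, by simp⟩

theorem rk_inj (hH : Function.Injective H) {e e' : E} (h : rk H e = rk H e') : e = e' := by
  apply hH
  rcases lt_trichotomy (H e) (H e') with h1 | h1 | h1
  · have := rk_strict h1
    omega
  · exact h1
  · have := rk_strict h1
    omega

theorem rk_surj (hH : Function.Injective H) {r : ℕ} (hr : r < Fintype.card E) :
    ∃ e, rk H e = r := by
  let f : E → Fin (Fintype.card E) := fun e => ⟨rk H e, rk_lt_card e⟩
  have hf : Function.Injective f := by
    intro e e' h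
    exact rk_inj hH (congrArg Fin.val h)
  have hb : Function.Bijective f := by
    rw [Fintype.bijective_iff_injective_and_card]
    exact ⟨hf, by simp⟩
  obtain ⟨e, he⟩ := hb.2 ⟨r, hr⟩
  exact ⟨e, congrArg Fin.val he⟩

end rank

section lattice

variable {g β : ℕ}

/-- height of a lattice line at the clock value `l` -/
def ht (l : ℕ) (e : Fin g × Fin β) : ℕ := e.2 + 2 * e.1 * l

/-- height with ties broken -/
def H (l : ℕ) (e : Fin g × Fin β) : ℕ := g * ht l e + (g - 1 - e.1)

theorem H_div (l : ℕ) (e : Fin g × Fin β) : H l e / g = ht l e := by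
  have := e.1.2
  unfold H
  rw [Nat.mul_add_div (by omega), Nat.div_eq_of_lt (by omega), add_zero]

theorem H_mod (l : ℕ) (e : Fin g × Fin β) : H l e % g = g - 1 - e.1 := by
  have := e.1.2
  unfold H
  rw [Nat.mul_add_mod, Nat.mod_eq_of_lt (by omega)]

theorem H_inj (l : ℕ) : Function.Injective (H l : Fin g × Fin β → ℕ) := by
  rintro ⟨i, j⟩ ⟨i', j'⟩ h
  have h1 := H_div l (i, j)
  have h2 := H_div l (i', j')
  have h3 := H_mod l (i, j)
  have h4 := H_mod l (i', j')
  rw [h] at h1 h3
  have h5 : g - 1 - (i : ℕ) = g - 1 - i' := h3.symm.trans h4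
  have h6 : ht l (i, j) = ht l (i', j') := h1.symm.trans h2
  have h7 : (i : ℕ) = i' := by omega
  unfold ht at h6
  dsimp only at h6
  rw [h7] at h6
  ext
  · exact h7
  · dsimp only
    omega

theorem sum_lt {β c : ℕ} (hc : c ≤ β) : ∑ j : Fin β, (if (j : ℕ) < c then 1 else 0) = c := by
  rw [Fin.sum_univ_eq_sum_range (fun j => if j < c then 1 else 0) β, Finset.sum_ite,
    Finset.sum_const_zero, add_zero, Finset.sum_const, smul_eq_mul, mul_one]
  rw [show (Finset.range β).filter (fun j => j < c) = Finset.range c by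
    ext j; simp only [Finset.mem_filter, Finset.mem_range]; omega]
  simp

theorem sum_gt {g i : ℕ} (hi : i < g) :
    ∑ i' : Fin g, (if i < (i' : ℕ) then 1 else 0) = g - 1 - i := by
  have h1 : ∀ i' : Fin g, (if i < (i' : ℕ) then 1 else 0) = 1 - (if (i' : ℕ) < i + 1 then 1 else 0) := by
    intro i'
    split_ifs <;> omega
  have h2 : ∑ i' : Fin g, ((if i < (i' : ℕ) then 1 else 0) + (if (i' : ℕ) < i + 1 then 1 else 0)) = g := by
    rw [Finset.sum_congr rfl (g := fun _ => 1) (fun i' _ => by split_ifs <;> omega)]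
    simp
  rw [Finset.sum_add_distrib, sum_lt (by omega)] at h2
  omega

/-- the rank of a line lying in a full block -/
theorem rk_full {l : ℕ} {e : Fin g × Fin β} (h1 : 2 * (g - 1) * l ≤ ht l e) (h2 : ht l e < β) :
    rk (H l) e + l * (g * (g - 1)) = g * ht l e + (g - 1 - e.1) := by
  set h := ht l e with hh
  have key : ∀ i' : Fin g, ∑ j' : Fin β, (if H l (i', j') < H l e then 1 else 0) =
      (h - 2 * i' * l) + (if (e.1 : ℕ) < i' then 1 else 0) := by
    intro i'
    have b1 := i'.2
    have b2 := e.1.2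
    have b3 : 2 * (i' : ℕ) * l ≤ 2 * (g - 1) * l :=
      Nat.mul_le_mul_right _ (Nat.mul_le_mul_left _ (by omega))
    have hc : (h - 2 * i' * l) + (if (e.1 : ℕ) < i' then 1 else 0) ≤ β := by
      split_ifs <;> omega
    rw [← sum_lt hc]
    refine Finset.sum_congr rfl (fun j' _ => ?_)
    congr 1
    rw [eq_iff_iff]
    unfold H
    rw [← hh]
    have e1 : ht l (i', j') = (j' : ℕ) + 2 * (i' : ℕ) * l := rfl
    rw [e1]
    dsimp only
    generalize hX : (j' : ℕ) + 2 * (i' : ℕ) * l = X
    generalize hY : 2 * (i' : ℕ) * l = Y at hX hc b3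
    have b4 : Y ≤ h := by omega
    constructor
    · intro hlt
      by_contra hc'
      have c1 : h ≤ X := by split_ifs at hc' <;> omega
      rcases Nat.eq_or_lt_of_le c1 with c2 | c2
      · rw [← c2] at hlt
        split_ifs at hc' <;> omega
      · have : g * (h + 1) ≤ g * X := Nat.mul_le_mul_left _ c2
        rw [Nat.mul_add] at this
        omega
    · intro hlt
      rcases lt_or_ge X h with c2 | c2
      · have : g * (X + 1) ≤ g * h := Nat.mul_le_mul_left _ c2
        rw [Nat.mul_add] at this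
        omega
      · split_ifs at hlt with c3
        · have c4 : X = h := by omega
          rw [c4]
          omega
        · omega
  have h3 : rk (H l) e = ∑ i' : Fin g, ((h - 2 * i' * l) + (if (e.1 : ℕ) < i' then 1 else 0)) := by
    unfold rk
    rw [Finset.card_filter, Fintype.sum_prod_type]
    exact Finset.sum_congr rfl (fun i' _ => key i')
  rw [h3, Finset.sum_add_distrib, sum_gt e.1.2]
  have h4 : ∑ i' : Fin g, (h - 2 * i' * l) + ∑ i' : Fin g, 2 * (i' : ℕ) * l = g * h := by
    rw [← Finset.sum_add_distrib]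
    rw [Finset.sum_congr rfl (g := fun _ => h)]
    · simp
    · intro i' _
      have b1 := i'.2
      have b3 : 2 * (i' : ℕ) * l ≤ 2 * (g - 1) * l :=
        Nat.mul_le_mul_right _ (Nat.mul_le_mul_left _ (by omega))
      omega
  have h5 : ∑ i' : Fin g, 2 * (i' : ℕ) * l = l * (g * (g - 1)) := by
    rw [Fin.sum_univ_eq_sum_range (fun i => 2 * i * l) g, ← Finset.sum_range_id_mul_two,
      ← Finset.sum_mul, mul_comm _ l, ← Finset.mul_sum, mul_comm 2]
  omega

/-- the crossing of two lines with the same height -/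
theorem cross_same {l l' : ℕ} {e e' : Fin g × Fin β} (h : ht l e = ht l e') (hi : e'.1 < e.1) :
    (l' ≤ l → H l' e < H l' e') ∧ (l < l' → H l' e' < H l' e) := by
  have b1 := e.1.2
  have b2 := e'.1.2
  have hi' : (e'.1 : ℕ) < e.1 := hi
  unfold ht at h
  obtain ⟨a, ha⟩ : ∃ a, (e.1 : ℕ) = e'.1 + (a + 1) := ⟨e.1 - e'.1 - 1, by omega⟩
  have hj : (e'.2 : ℕ) = e.2 + 2 * (a + 1) * l := by
    rw [ha] at h
    have : 2 * ((e'.1 : ℕ) + (a + 1)) * l = 2 * e'.1 * l + 2 * (a + 1) * l := by ring
    omega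
  unfold H ht
  constructor
  · intro hl
    obtain ⟨c, hc⟩ := Nat.exists_eq_add_of_le hl
    have e1 : (e'.2 : ℕ) + 2 * e'.1 * l' = e.2 + 2 * e.1 * l' + 2 * (a + 1) * c := by
      rw [hj, ha, hc]; ring
    rw [e1, Nat.mul_add g (_ + _)]
    omega
  · intro hl
    obtain ⟨c, hc⟩ := Nat.exists_eq_add_of_lt hl
    have e1 : (e.2 : ℕ) + 2 * e.1 * l' = e'.2 + 2 * e'.1 * l' + 2 * (a + 1) * (c + 1) := by
      rw [hj, ha, hc]; ring
    have e2 : g * (e'.2 + 2 * e'.1 * l' + 1) ≤ g * (e.2 + 2 * e.1 * l') := by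
      apply Nat.mul_le_mul_left
      rw [e1]
      have : 1 ≤ 2 * (a + 1) * (c + 1) := Nat.one_le_iff_ne_zero.2 (by positivity)
      omega
    rw [Nat.mul_add g _ 1] at e2
    omega

theorem H_cast (l : ℕ) (e : Fin g × Fin β) :
    (H l e : ℤ) = (g * e.2 + (g - 1) - e.1) + 2 * g * e.1 * l := by
  have := e.1.2
  unfold H ht
  have : ((g - 1 - (e.1 : ℕ) : ℕ) : ℤ) = (g : ℤ) - 1 - e.1 := by omega
  push_cast
  rw [this]
  ring

/-- heights are linear in the clock, so the order changes at most once -/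
theorem cross_mono {l₀ l₁ l₂ : ℕ} {e e' : Fin g × Fin β} (h0 : H l₀ e < H l₀ e') (h01 : l₀ ≤ l₁)
    (h1 : H l₁ e' < H l₁ e) (h12 : l₁ ≤ l₂) : H l₂ e' < H l₂ e := by
  have a0 : (H l₀ e : ℤ) < H l₀ e' := by exact_mod_cast h0
  have a1 : (H l₁ e' : ℤ) < H l₁ e := by exact_mod_cast h1
  have : (H l₂ e' : ℤ) < H l₂ e := by
    rw [H_cast, H_cast] at a0 a1 ⊢
    have b1 : (l₀ : ℤ) ≤ l₁ := by exact_mod_cast h01
    have b2 : (l₁ : ℤ) ≤ l₂ := by exact_mod_cast h12
    have b3 : l₀ ≠ l₁ := by
      rintro rfl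
      omega
    have b4 : (l₀ : ℤ) < l₁ := by omega
    have c1 : 0 < ((2 * g * e.1 : ℤ) - 2 * g * e'.1) * (l₁ - l₀) := by nlinarith
    have c2 : 0 < ((2 * g * e.1 : ℤ) - 2 * g * e'.1) :=
      pos_of_mul_pos_left c1 (by omega)
    nlinarith
  exact_mod_cast this

end lattice

end LevelLat
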