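import Pool.Agent.LevelLat.Basic
import Pool.Agent.LevelLat.Rank

/-!
# Composition of block exchange systems through lattice bundles
-/

namespace LevelLat

/-- the relation of lying in the same full block -/
def SB (M Q g : ℕ) (i j : ℕ) : Prop :=
  ∃ k < M, Q + k * g ≤ i ∧ i < Q + k * g + g ∧ Q + k * g ≤ j ∧ j < Q + k * g + g

section role

variable {g β : ℕ}

/-- distance from the gap in the bundle, for the bundle going up (`false`) and the bundle going
down (`true`) -/
noncomputable def R (m : ℕ) (b : Bool) (l : ℕ) (e : Fin g × Fin β) : ℕ :=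
  if b then rk (H l) e else m - 1 - rk (H l) e

theorem card_E : Fintype.card (Fin g × Fin β) = g * β := by simp

theorem R_lt {m : ℕ} (hm : m = g * β) (b : Bool) (l : ℕ) (e : Fin g × Fin β) : R m b l e < m := by
  have := rk_lt_card (H := H l) e
  rw [card_E] at this
  unfold R
  split_ifs <;> omega

theorem R_inj {m : ℕ} (hm : m = g * β) {b : Bool} {l : ℕ} {e e' : Fin g × Fin β}
    (h : R m b l e = R m b l e') : e = e' := by
  have h1 := rk_lt_card (H := H l) e
  have h2 := rk_lt_card (H := H l) e'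
  rw [card_E] at h1 h2
  apply rk_inj (H_inj l)
  unfold R at h
  split_ifs at h <;> omega

theorem R_surj {m : ℕ} (hm : m = g * β) (b : Bool) (l : ℕ) {r : ℕ} (hr : r < m) :
    ∃ e : Fin g × Fin β, R m b l e = r := by
  cases b
  · obtain ⟨e, he⟩ := rk_surj (H_inj (g := g) (β := β) l) (r := m - 1 - r)
      (by rw [card_E]; omega)
    refine ⟨e, ?_⟩
    simp only [R, Bool.false_eq_true, if_false]
    omega
  · obtain ⟨e, he⟩ := rk_surj (H_inj (g := g) (β := β) l) (r := r) (by rw [card_E]; omega)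
    exact ⟨e, by simpa [R] using he⟩

theorem pos_R {m : ℕ} (hm : m = g * β) (b : Bool) (l : ℕ) (e e' : Fin g × Fin β) :
    pos (b, R m b l e) < pos (b, R m b l e') ↔ H l e < H l e' := by
  have h1 := rk_lt_card (H := H l) e
  have h2 := rk_lt_card (H := H l) e'
  rw [card_E] at h1 h2
  rw [← rk_lt_iff (H := H l),
    pos_lt_iff (u := (b, R m b l e)) (v := (b, R m b l e')) rfl]
  cases b
  · simp [R]
    omega
  · simp [R]

theorem R_lt2 {m : ℕ} (hm : m = g * β) (b b' : Bool) (l : ℕ) (e : Fin g × Fin β) :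
    ((b', R m b l e) : V).2 < m := R_lt hm b l e

theorem same_height {m M Q D : ℕ} (hβ : β = M + 2 * (g - 1) * D) (hQ : Q = g * (g - 1) * D)
    (hm : m = g * β) {b : Bool} {l k : ℕ} (hl : l ≤ D) (hk : k < M) {e : Fin g × Fin β}
    (h1 : Q + k * g ≤ R m b l e) (h2 : R m b l e < Q + k * g + g) :
    ht l e = if b then 2 * (g - 1) * l + (D - l) * (g - 1) + k
      else β - 1 - ((D - l) * (g - 1) + k) := by
  obtain ⟨c, hc⟩ := Nat.exists_eq_add_of_le hl
  obtain ⟨g', hg'⟩ : ∃ g', g = g' + 1 := ⟨g - 1, by have := e.1.2; omega⟩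
  have hc' : D - l = c := by omega
  have hgg : g - 1 = g' := by omega
  rw [hc', hgg]
  obtain ⟨i, hi⟩ := Nat.exists_eq_add_of_le h1
  have hig : i < g := by omega
  have q1 : 2 * g' * D = 2 * g' * l + 2 * (c * g') := by rw [hc]; ring
  have q2 : g * g' * D = g * (g' * l) + g * (c * g') := by rw [hc]; ring
  have q3 : l * (g * g') = g * (g' * l) := by ring
  have q4 : 2 * g' * l = 2 * (g' * l) := by ring
  rw [hgg] at hβ hQ
  cases b
  · -- going up
    simp only [Bool.false_eq_true, if_false]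
    set h := β - 1 - (c * g' + k) with hh
    have q5 : 2 * i * l ≤ 2 * (g' * l) := by
      rw [mul_assoc]
      exact Nat.mul_le_mul_left _ (Nat.mul_le_mul_right _ (by omega))
    have hlow : 2 * (g' * l) ≤ h := by omega
    let e₀ : Fin g × Fin β := (⟨i, hig⟩, ⟨h - 2 * i * l, by omega⟩)
    have e₀h : ht l e₀ = h := by
      show (h - 2 * i * l) + 2 * i * l = h
      omega
    have hr := rk_full (l := l) (e := e₀) (by rw [e₀h, hgg]; omega) (by rw [e₀h]; omega)
    rw [e₀h, hgg, q3] at hr
    have e01 : (e₀.1 : ℕ) = i := rfl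
    rw [e01] at hr
    have q6 : g * h + g * (c * g' + k) + g = g * β := by
      have : β = h + (c * g' + k) + 1 := by omega
      conv_rhs => rw [this]
      ring
    have q7 : g * (c * g' + k) = g * (c * g') + k * g := by ring
    have : R m false l e₀ = R m false l e := by
      rw [hi]
      simp only [R, Bool.false_eq_true, if_false]
      have := rk_lt_card (H := H l) e₀
      rw [card_E] at this
      omega
    rw [← R_inj hm this, e₀h]
  · simp only [if_true]
    set h := 2 * g' * l + c * g' + k with hh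
    have q5 : 2 * (g' - i) * l ≤ 2 * (g' * l) := by
      rw [mul_assoc]
      exact Nat.mul_le_mul_left _ (Nat.mul_le_mul_right _ (by omega))
    let e₀ : Fin g × Fin β := (⟨g' - i, by omega⟩, ⟨h - 2 * (g' - i) * l, by omega⟩)
    have e₀h : ht l e₀ = h := by
      show (h - 2 * (g' - i) * l) + 2 * (g' - i) * l = h
      omega
    have hr := rk_full (l := l) (e := e₀) (by rw [e₀h, hgg]; omega) (by rw [e₀h]; omega)
    rw [e₀h, hgg, q3] at hr
    have e01 : (e₀.1 : ℕ) = g' - i := rfl
    rw [e01] at hr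
    have q6 : g * h = 2 * (g * (g' * l)) + g * (c * g') + k * g := by rw [hh]; ring
    have : R m true l e₀ = R m true l e := by
      rw [hi]
      simp only [R, if_true]
      omega
    rw [← R_inj hm this, e₀h]

end role

section comp

variable {g β m N : ℕ} (z : ℕ → V → ℤ) (xP : ℕ → V → ℤ) (kP : ℕ → ℕ) (up dn : ℕ → V)

/-- statuses inside the window of the exchange `t` -/
noncomputable def Y (m : ℕ) (t p : ℕ) (w : V × (Fin g × Fin β)) : ℤ :=
  if w.1 = up t then z p (false, R m false (kP t) w.2)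
  else if w.1 = dn t then z p (true, R m true (kP t) w.2)
  else xP t w.1

/-- the specification of the exchanges of the outer system -/
structure Ex (gP TP : ℕ) : Prop where
  ug : ∀ t < TP, (up t).2 < gP
  dg : ∀ t < TP, (dn t).2 < gP
  u0 : ∀ t < TP, xP t (up t) = 0
  u1 : ∀ t < TP, xP (t + 1) (up t) = 1
  d1 : ∀ t < TP, xP t (dn t) = 1
  d0 : ∀ t < TP, xP (t + 1) (dn t) = 0
  ot : ∀ t < TP, ∀ v : V, v.2 < gP → v ≠ up t → v ≠ dn t → xP (t + 1) v = xP t v

variable {z xP kP up dn} {gP TP DP DB : ℕ} {JP J : ℕ → ℕ → Prop} {kz : ℕ → ℕ}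

theorem Ex.ne (hE : Ex xP up dn gP TP) {t : ℕ} (ht : t < TP) : up t ≠ dn t := by
  intro h
  have h1 := hE.u0 t ht
  have h2 := hE.d1 t ht
  rw [h, h2] at h1
  norm_num at h1

theorem Y_zero (hE : Ex xP up dn gP TP) (hZ : Zig m N DB J z kz) (hm : m = g * β) {t : ℕ}
    (ht : t < TP) (w : V × (Fin g × Fin β)) : Y z xP kP up dn m t 0 w = xP t w.1 := by
  unfold Y
  split_ifs with h1 h2
  · rw [hZ.ini (false, R m false (kP t) w.2) (R_lt2 hm _ _ _ _), h1, hE.u0 t ht]
    simp
  · rw [hZ.ini (true, R m true (kP t) w.2) (R_lt2 hm _ _ _ _), h2, hE.d1 t ht]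
    simp
  · rfl

theorem Y_last (hE : Ex xP up dn gP TP) (hZ : Zig m N DB J z kz) (hm : m = g * β) {t : ℕ}
    (ht : t < TP) (w : V × (Fin g × Fin β)) (hw : w.1.2 < gP) :
    Y z xP kP up dn m t N w = xP (t + 1) w.1 := by
  unfold Y
  split_ifs with h1 h2
  · rw [hZ.fin (false, R m false (kP t) w.2) (R_lt2 hm _ _ _ _), h1, hE.u1 t ht]
    simp
  · rw [hZ.fin (true, R m true (kP t) w.2) (R_lt2 hm _ _ _ _), h2, hE.d0 t ht]
    simp
  · exact (hE.ot t ht w.1 hw h1 h2).symm

theorem Y_01 (hP : ∀ t v, xP t v = 0 ∨ xP t v = 1) (hZ : Zig m N DB J z kz) (t p : ℕ)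
    (w : V × (Fin g × Fin β)) : Y z xP kP up dn m t p w = 0 ∨ Y z xP kP up dn m t p w = 1 := by
  unfold Y
  split_ifs
  · exact hZ.h01 _ _
  · exact hZ.h01 _ _
  · exact hP _ _

/-- different statuses of curves in different bundles come from the outer system -/
theorem Y_base (hE : Ex xP up dn gP TP) {t p : ℕ}
    (ht : t < TP) {w w' : V × (Fin g × Fin β)} (hw : w.1.2 < gP) (hw' : w'.1.2 < gP)
    (hne : w.1 ≠ w'.1) {a b : ℤ} (hab : a ≠ b) (ha : a = 0 ∨ a = 1) (hb : b = 0 ∨ b = 1)
    (h1 : Y z xP kP up dn m t p w = a) (h2 : Y z xP kP up dn m t p w' = b) :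
    ∃ s, t ≤ s ∧ s ≤ t + 1 ∧ xP s w.1 = a ∧ xP s w'.1 = b := by
  have hud := hE.ne ht
  have key : ∀ v : V, (v = up t ∨ v = dn t) → ∀ c : ℤ, (c = 0 ∨ c = 1) →
      ∃ s, t ≤ s ∧ s ≤ t + 1 ∧ xP s v = c := by
    rintro v (rfl | rfl) c (rfl | rfl)
    · exact ⟨t, le_rfl, by omega, hE.u0 t ht⟩
    · exact ⟨t + 1, by omega, le_rfl, hE.u1 t ht⟩
    · exact ⟨t + 1, by omega, le_rfl, hE.d0 t ht⟩
    · exact ⟨t, le_rfl, by omega, hE.d1 t ht⟩
  have const : ∀ w : V × (Fin g × Fin β), w.1.2 < gP → ¬ (w.1 = up t ∨ w.1 = dn t) → ∀ c,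
      Y z xP kP up dn m t p w = c → ∀ s, t ≤ s → s ≤ t + 1 → xP s w.1 = c := by
    intro w hw hn c hc s hs1 hs2
    rw [not_or] at hn
    unfold Y at hc
    rw [if_neg hn.1, if_neg hn.2] at hc
    rcases Nat.lt_or_ge t s with h | h
    · obtain rfl : s = t + 1 := by omega
      rw [hE.ot t ht w.1 hw hn.1 hn.2, hc]
    · obtain rfl : s = t := by omega
      exact hc
  by_cases c1 : w.1 = up t ∨ w.1 = dn t
  · by_cases c2 : w'.1 = up t ∨ w'.1 = dn t
    · rcases c1 with c1 | c1 <;> rcases c2 with c2 | c2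
      · exact absurd (c1.trans c2.symm) hne
      · rcases ha with rfl | rfl <;> rcases hb with rfl | rfl
        · exact absurd rfl hab
        · exact ⟨t, le_rfl, by omega, by rw [c1]; exact hE.u0 t ht, by rw [c2]; exact hE.d1 t ht⟩
        · exact ⟨t + 1, by omega, le_rfl, by rw [c1]; exact hE.u1 t ht,
            by rw [c2]; exact hE.d0 t ht⟩
        · exact absurd rfl hab
      · rcases ha with rfl | rfl <;> rcases hb with rfl | rfl
        · exact absurd rfl hab
        · exact ⟨t + 1, by omega, le_rfl, by rw [c1]; exact hE.d0 t ht,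
            by rw [c2]; exact hE.u1 t ht⟩
        · exact ⟨t, le_rfl, by omega, by rw [c1]; exact hE.d1 t ht, by rw [c2]; exact hE.u0 t ht⟩
        · exact absurd rfl hab
      · exact absurd (c1.trans c2.symm) hne
    · obtain ⟨s, hs1, hs2, hs3⟩ := key w.1 c1 a ha
      exact ⟨s, hs1, hs2, hs3, const w' hw' c2 b h2 s hs1 hs2⟩
  · by_cases c2 : w'.1 = up t ∨ w'.1 = dn t
    · obtain ⟨s, hs1, hs2, hs3⟩ := key w'.1 c2 b hb
      exact ⟨s, hs1, hs2, const w hw c1 a h1 s hs1 hs2, hs3⟩
    · exact ⟨t, le_rfl, by omega, const w hw c1 a h1 t le_rfl (by omega),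
        const w' hw' c2 b h2 t le_rfl (by omega)⟩

/-- a curve whose status is not the one of its bundle-mate belongs to a moving bundle -/
theorem Y_role {t p : ℕ} {w w' : V × (Fin g × Fin β)} (hb : w.1 = w'.1)
    (h : Y z xP kP up dn m t p w ≠ Y z xP kP up dn m t p w') :
    (w.1 = up t ∧ Y z xP kP up dn m t p w = z p (false, R m false (kP t) w.2) ∧
      Y z xP kP up dn m t p w' = z p (false, R m false (kP t) w'.2)) ∨
    (w.1 ≠ up t ∧ w.1 = dn t ∧ Y z xP kP up dn m t p w = z p (true, R m true (kP t) w.2) ∧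
      Y z xP kP up dn m t p w' = z p (true, R m true (kP t) w'.2)) := by
  unfold Y at h ⊢
  rw [← hb] at h ⊢
  by_cases c1 : w.1 = up t
  · rw [if_pos c1, if_pos c1]
    exact Or.inl ⟨c1, rfl, rfl⟩
  · by_cases c2 : w.1 = dn t
    · rw [if_neg c1, if_pos c2, if_neg c1, if_pos c2]
      exact Or.inr ⟨c1, c2, rfl, rfl⟩
    · rw [if_neg c1, if_neg c2, if_neg c1, if_neg c2] at h
      exact absurd rfl h

/-- the order of a pair of curves of the composite changes at most once -/
theorem Y_pair (hP : Zig gP TP DP JP xP kP) (hE : Ex xP up dn gP TP) {M Q : ℕ}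
    (hβ : β = M + 2 * (g - 1) * DP) (hQ : Q = g * (g - 1) * DP) (hm : m = g * β)
    (hZ : Zig m N DB (SB M Q g) z kz) {w w' : V × (Fin g × Fin β)} (hw : w.1.2 < gP)
    (hw' : w'.1.2 < gP)
    (hord : (w.1 ≠ w'.1 ∧ pos w.1 < pos w'.1) ∨ (w.1 = w'.1 ∧ H 0 w.2 < H 0 w'.2))
    {t t' p p' : ℕ} (ht : t < TP) (ht' : t' < TP) (hp : p ≤ N) (hp' : p' ≤ N)
    (hle : t < t' ∨ (t = t' ∧ p ≤ p'))
    (h1 : Y z xP kP up dn m t p w' = 0) (h2 : Y z xP kP up dn m t p w = 1)
    (h3 : Y z xP kP up dn m t' p' w' = 1) (h4 : Y z xP kP up dn m t' p' w = 0) : False := by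
  rcases hord with ⟨hne, hpos⟩ | ⟨heq, hH⟩
  · obtain ⟨s, s1, s2, s3, s4⟩ := Y_base hE ht hw hw' hne (a := 1) (b := 0) (by norm_num)
      (Or.inr rfl) (Or.inl rfl) h2 h1
    obtain ⟨s', s1', s2', s3', s4'⟩ := Y_base hE ht' hw hw' hne (a := 0) (b := 1) (by norm_num)
      (Or.inl rfl) (Or.inr rfl) h4 h3
    rcases Nat.lt_or_ge s' s with hs | hs
    · rcases hle with hle | ⟨rfl, hpp⟩
      · omega
      · obtain rfl : s = t + 1 := by omega
        obtain rfl : s' = t := by omega
        have hud := hE.ne ht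
        -- `w` goes up and `w'` goes down
        have hwu : w.1 = up s' := by
          by_contra c1
          by_cases c2 : w.1 = dn s'
          · have := hE.d1 s' ht
            rw [← c2, s3'] at this
            norm_num at this
          · have := hE.ot s' ht w.1 hw c1 c2
            rw [s3, s3'] at this
            norm_num at this
        have hwd : w'.1 = dn s' := by
          by_contra c1
          by_cases c2 : w'.1 = up s'
          · exact hne (hwu.trans c2.symm)
          · have := hE.ot s' ht w'.1 hw' c2 c1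
            rw [s4, s4'] at this
            norm_num at this
        have hnu : w'.1 ≠ up s' := fun h => hud (h.symm.trans hwd)
        unfold Y at h1 h2 h3 h4
        rw [if_neg hnu, if_pos hwd] at h1 h3
        rw [if_pos hwu] at h2 h4
        have := hZ.pr (false, R m false (kP s') w.2) (true, R m true (kP s') w'.2)
          (R_lt2 hm _ _ _ _) (R_lt2 hm _ _ _ _) ((pos_cross (by simp)).2 rfl) p p' hpp hp'
        dsimp only at this
        rw [h1, h2, h3, h4] at this
        have := this (by norm_num)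
        norm_num at this
    · have := hP.pr w.1 w'.1 hw hw' hpos s s' hs (by omega)
      dsimp only at this
      rw [s3, s4, s3', s4'] at this
      have := this (by norm_num)
      norm_num at this
  · -- same bundle
    have hrole : ∀ t p, t < TP → ∀ c d : ℤ, c ≠ d → Y z xP kP up dn m t p w = c →
        Y z xP kP up dn m t p w' = d →
        ∃ b : Bool, xP t w.1 ≠ xP (t + 1) w.1 ∧ (w.1 = if b then dn t else up t) ∧
          z p (b, R m b (kP t) w.2) = c ∧ z p (b, R m b (kP t) w'.2) = d := by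
      intro t p ht c d hcd hc hd
      rcases Y_role (z := z) (xP := xP) (kP := kP) (up := up) (dn := dn) (m := m) (t := t) (p := p)
        heq (by rw [hc, hd]; exact hcd) with ⟨a1, a2, a3⟩ | ⟨_, a1, a2, a3⟩
      · exact ⟨false, by rw [a1, hE.u0 t ht, hE.u1 t ht]; norm_num, by simpa using a1,
          a2.symm.trans hc, a3.symm.trans hd⟩
      · exact ⟨true, by rw [a1, hE.d0 t ht, hE.d1 t ht]; norm_num, by simpa using a1,
          a2.symm.trans hc, a3.symm.trans hd⟩
    obtain ⟨b, c1, c2, c3, c4⟩ := hrole t p ht 1 0 (by norm_num) h2 h1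
    obtain ⟨b', c1', c2', c3', c4'⟩ := hrole t' p' ht' 0 1 (by norm_num) h4 h3
    have hl : kP t ≤ DP := (hP.clk t ht).le
    have hl' : kP t' ≤ DP := (hP.clk t' ht').le
    have hwne : w.2 ≠ w'.2 := by
      intro h
      rw [h] at hH
      omega
    have hnotsame : ∀ l l', H l w.2 ≠ H l' w'.2 ∨ l ≠ l' := by
      intro l l'
      by_contra hc
      push Not at hc
      obtain ⟨hc1, rfl⟩ := hc
      exact hwne (H_inj l hc1)
    -- at the second time the order is the original one
    have hB : H (kP t') w.2 < H (kP t') w'.2 := by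
      by_contra hcon
      have hlt : H (kP t') w'.2 < H (kP t') w.2 := by
        rcases hnotsame (kP t') (kP t') with h | h
        · omega
        · exact absurd rfl h
      have hpos := (pos_R hm b' (kP t') w'.2 w.2).2 hlt
      by_cases hJ : SB M Q g (R m b' (kP t') w'.2) (R m b' (kP t') w.2)
      · obtain ⟨k, hk, k1, k2, k3, k4⟩ := hJ
        have e1 := same_height hβ hQ hm hl' hk k1 k2
        have e2 := same_height hβ hQ hm hl' hk k3 k4
        have e3 : LevelLat.ht (kP t') w'.2 = LevelLat.ht (kP t') w.2 := e1.trans e2.symm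
        have e4 : w.2.1 < w'.2.1 := by
          have g1 := w.2.1.2
          have g2 := w'.2.1.2
          unfold H at hlt
          rw [e3] at hlt
          rw [Fin.lt_def]
          omega
        have := (cross_same e3 e4).1 (Nat.zero_le _)
        omega
      · have := hZ.nj (b', R m b' (kP t') w'.2) (b', R m b' (kP t') w.2) (R_lt2 hm _ _ _ _)
          (R_lt2 hm _ _ _ _) rfl hpos hJ p' hp'
        rw [c3', c4'] at this
        norm_num at this
    rcases hle with hle | ⟨rfl, hpp⟩
    · have hll : kP t < kP t' := hP.inc t t' hle ht' w.1 hw c1 c1'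
      rcases Nat.lt_or_ge (H (kP t) w'.2) (H (kP t) w.2) with hlt | hge
      · have := cross_mono hH (Nat.zero_le _) hlt hll.le
        omega
      · have hlt : H (kP t) w.2 < H (kP t) w'.2 := by
          rcases hnotsame (kP t) (kP t) with h | h
          · omega
          · exact absurd rfl h
        have hpos := (pos_R hm b (kP t) w.2 w'.2).2 hlt
        by_cases hJ : SB M Q g (R m b (kP t) w.2) (R m b (kP t) w'.2)
        · obtain ⟨k, hk, k1, k2, k3, k4⟩ := hJ
          have e1 := same_height hβ hQ hm hl hk k1 k2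
          have e2 := same_height hβ hQ hm hl hk k3 k4
          have e3 : LevelLat.ht (kP t) w.2 = LevelLat.ht (kP t) w'.2 := e1.trans e2.symm
          have e4 : w'.2.1 < w.2.1 := by
            have g1 := w.2.1.2
            have g2 := w'.2.1.2
            unfold H at hlt
            rw [e3] at hlt
            rw [Fin.lt_def]
            omega
          have := (cross_same e3 e4).2 hll
          omega
        · have := hZ.nj (b, R m b (kP t) w.2) (b, R m b (kP t) w'.2) (R_lt2 hm _ _ _ _)
            (R_lt2 hm _ _ _ _) rfl hpos hJ p hp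
          rw [c3, c4] at this
          norm_num at this
    · have hbb : b = b' := by
        have hud := hE.ne ht
        cases b <;> cases b' <;> simp at c2 c2' ⊢
        · exact hud (c2.symm.trans c2')
        · exact hud (c2'.symm.trans c2)
      subst hbb
      have hpos := (pos_R hm b (kP t) w.2 w'.2).2 hB
      have := hZ.pr (b, R m b (kP t) w.2) (b, R m b (kP t) w'.2)
        (R_lt2 hm _ _ _ _) (R_lt2 hm _ _ _ _) hpos p p' hpp hp'
      dsimp only at this
      rw [c3, c4, c3', c4'] at this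
      have := this (by norm_num)
      norm_num at this

/-- statuses of the composite at the time `τ` -/
noncomputable def X (z : ℕ → V → ℤ) (xP : ℕ → V → ℤ) (kP : ℕ → ℕ) (up dn : ℕ → V)
    (m N TP : ℕ) (τ : ℕ) (w : V × (Fin g × Fin β)) : ℤ :=
  if τ / N < TP then Y z xP kP up dn m (τ / N) (τ % N) w else xP TP w.1

theorem X_at (hE : Ex xP up dn gP TP) (hZ : Zig m N DB J z kz) (hm : m = g * β) (hN : 0 < N)
    {t p : ℕ} (ht : t < TP) (hp : p ≤ N) {w : V × (Fin g × Fin β)} (hw : w.1.2 < gP) :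
    X z xP kP up dn m N TP (t * N + p) w = Y z xP kP up dn m t p w := by
  rcases Nat.lt_or_ge p N with h | h
  · have h1 : (t * N + p) / N = t := by
      rw [mul_comm, Nat.mul_add_div hN, Nat.div_eq_of_lt h, add_zero]
    have h2 : (t * N + p) % N = p := by
      rw [mul_comm, Nat.mul_add_mod, Nat.mod_eq_of_lt h]
    unfold X
    rw [h1, h2, if_pos ht]
  · obtain rfl : p = N := by omega
    have h1 : (t * p + p) / p = t + 1 := by
      rw [mul_comm, Nat.mul_add_div hN, Nat.div_self hN]
    have h2 : (t * p + p) % p = 0 := by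
      rw [mul_comm, Nat.mul_add_mod, Nat.mod_self]
    rw [Y_last hE hZ hm ht w hw]
    unfold X
    rw [h1, h2]
    split_ifs with h3
    · exact Y_zero hE hZ hm h3 w
    · rw [show TP = t + 1 by omega]

/-- the element of the bundle with given initial distance from the gap -/
noncomputable def dec (g β m : ℕ) (hm : m = g * β) (b : Bool) (r : ℕ) (hr : r < m) :
    Fin g × Fin β := (R_surj hm b 0 hr).choose

theorem dec_spec {g β m : ℕ} (hm : m = g * β) (b : Bool) (r : ℕ) (hr : r < m) :
    R m b 0 (dec g β m hm b r hr) = r := (R_surj hm b 0 hr).choose_spec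

/-- the curve of the composite with given side and index -/
noncomputable def cw (g β m : ℕ) (hm : m = g * β) (hm0 : 0 < m) (v : V) :
    V × (Fin g × Fin β) :=
  ((v.1, v.2 / m), dec g β m hm v.1 (v.2 % m) (Nat.mod_lt _ hm0))

theorem cw_order {hm : m = g * β} {hm0 : 0 < m} {u v : V} (h : pos u < pos v) :
    ((cw g β m hm hm0 u).1 ≠ (cw g β m hm hm0 v).1 ∧
      pos (cw g β m hm hm0 u).1 < pos (cw g β m hm hm0 v).1) ∨
    ((cw g β m hm hm0 u).1 = (cw g β m hm hm0 v).1 ∧
      H 0 (cw g β m hm hm0 u).2 < H 0 (cw g β m hm hm0 v).2) := by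
  obtain ⟨b, I⟩ := u
  obtain ⟨b', I'⟩ := v
  by_cases hb : b = b'
  · subst hb
    by_cases hq : I / m = I' / m
    · right
      refine ⟨by simp [cw, hq], ?_⟩
      have e1 := dec_spec hm b (I % m) (Nat.mod_lt _ hm0)
      have e2 := dec_spec hm b (I' % m) (Nat.mod_lt _ hm0)
      have h1 := Nat.div_add_mod I m
      have h2 := Nat.div_add_mod I' m
      rw [← hq] at h2
      rw [← pos_R hm b 0]
      unfold cw
      dsimp only
      rw [e1, e2]
      rw [pos_mk_lt] at h ⊢
      rcases h with ⟨h3, h4⟩ | ⟨h3, h4⟩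
      · exact Or.inl ⟨h3, by omega⟩
      · exact Or.inr ⟨h3, by omega⟩
    · left
      refine ⟨by simpa [cw] using hq, ?_⟩
      unfold cw
      dsimp only
      rw [pos_mk_lt] at h ⊢
      rcases h with ⟨h3, h4⟩ | ⟨h3, h4⟩
      · have := Nat.div_le_div_right (c := m) h4.le
        exact Or.inl ⟨h3, by omega⟩
      · have := Nat.div_le_div_right (c := m) h4.le
        exact Or.inr ⟨h3, by omega⟩
  · left
    refine ⟨by simp [cw, hb], ?_⟩
    rw [pos_cross (by simpa using hb)] at h
    exact (pos_cross (by simpa [cw] using hb)).2 h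

theorem cw_inj {hm : m = g * β} {hm0 : 0 < m} {u v : V}
    (h : cw g β m hm hm0 u = cw g β m hm hm0 v) : u = v := by
  by_contra hne
  have hp : pos u ≠ pos v := by
    intro hp
    apply hne
    obtain ⟨b, i⟩ := u
    obtain ⟨b', j⟩ := v
    cases b <;> cases b' <;> simp [pos] at hp ⊢ <;> omega
  rcases lt_or_gt_of_ne hp with h1 | h1
  · rcases cw_order (g := g) (β := β) (hm := hm) (hm0 := hm0) h1 with ⟨h2, _⟩ | ⟨_, h2⟩
    · exact h2 (by rw [h])
    · rw [h] at h2
      omega
  · rcases cw_order (g := g) (β := β) (hm := hm) (hm0 := hm0) h1 with ⟨h2, _⟩ | ⟨_, h2⟩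
    · exact h2 (by rw [h])
    · rw [h] at h2
      omega

theorem cw_surj (hm : m = g * β) (hm0 : 0 < m) {w : V × (Fin g × Fin β)} (hw : w.1.2 < gP) :
    ∃ v : V, v.2 < gP * m ∧ cw g β m hm hm0 v = w := by
  obtain ⟨⟨b, i⟩, e⟩ := w
  dsimp only at hw
  have hr := R_lt hm b 0 e
  refine ⟨(b, i * m + R m b 0 e), ?_, ?_⟩
  · dsimp only
    calc i * m + R m b 0 e < i * m + m := by omega
      _ = (i + 1) * m := by ring
      _ ≤ gP * m := Nat.mul_le_mul_right _ hw
  · have h1 : (i * m + R m b 0 e) / m = i := by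
      rw [mul_comm, Nat.mul_add_div hm0, Nat.div_eq_of_lt hr, add_zero]
    have h2 : (i * m + R m b 0 e) % m = R m b 0 e := by
      rw [mul_comm, Nat.mul_add_mod, Nat.mod_eq_of_lt hr]
    unfold cw
    dsimp only
    ext1
    · dsimp only
      rw [h1]
    · dsimp only
      apply R_inj hm (b := b) (l := 0)
      rw [dec_spec, h2]

/-- **Composition**: every curve of the outer system is replaced by a bundle of `g * β` lattice
lines, every exchange by the block exchange pattern containing `M` copies of the inner system. -/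
theorem HasZig.comp {gP TP DP g T DB M : ℕ} (hP : HasZig gP TP DP (fun _ _ => True))
    (hB : HasZig g T DB (fun _ _ => True)) (hg : 0 < g) (hT : 0 < T) (hDB : 0 < DB)
    (hM : 0 < M) :
    HasZig (gP * (g * (M + 2 * (g - 1) * DP)))
      (TP * (g * (g - 1) * DP + M * T + g * (g - 1) * DP)) (DP * DB) (fun _ _ => True) := by
  set Q := g * (g - 1) * DP with hQ
  set β := M + 2 * (g - 1) * DP with hβ
  set m := g * β with hm
  set N := Q + M * T + Q with hN
  have hmeq : Q + M * g + Q = m := by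
    rw [hm, hβ, hQ]
    ring
  have hZ := hB.pattern hDB M Q
  rw [hmeq, ← hN] at hZ
  obtain ⟨z, kz, hZ⟩ := hZ
  obtain ⟨xP, kP, hP⟩ := hP
  replace hZ : Zig m N DB (SB M Q g) z kz := hZ
  have hm0 : 0 < m := by
    rw [hm, hβ]
    positivity
  have hN0 : 0 < N := by
    have : 0 < M * T := by positivity
    omega
  -- the exchanges of the outer system
  have hex : ∀ t, ∃ ud : V × V, t < TP → ud.1.2 < gP ∧ ud.2.2 < gP ∧ xP t ud.1 = 0 ∧
      xP (t + 1) ud.1 = 1 ∧ xP t ud.2 = 1 ∧ xP (t + 1) ud.2 = 0 ∧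
      ∀ v : V, v.2 < gP → v ≠ ud.1 → v ≠ ud.2 → xP (t + 1) v = xP t v := by
    intro t
    by_cases ht : t < TP
    · obtain ⟨u, d, h⟩ := hP.exch t ht
      exact ⟨(u, d), fun _ => h⟩
    · exact ⟨((false, 0), (false, 0)), fun h => absurd h ht⟩
  choose ud hud using hex
  let up : ℕ → V := fun t => (ud t).1
  let dn : ℕ → V := fun t => (ud t).2
  have hE : Ex xP up dn gP TP :=
    ⟨fun t ht => (hud t ht).1, fun t ht => (hud t ht).2.1, fun t ht => (hud t ht).2.2.1,
      fun t ht => (hud t ht).2.2.2.1, fun t ht => (hud t ht).2.2.2.2.1,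
      fun t ht => (hud t ht).2.2.2.2.2.1, fun t ht => (hud t ht).2.2.2.2.2.2⟩
  let c : V → V × (Fin g × Fin β) := cw g β m hm hm0
  have hc2 : ∀ v : V, v.2 < gP * m → (c v).1.2 < gP := by
    intro v hv
    exact Nat.div_lt_of_lt_mul (by rwa [mul_comm] at hv)
  have hX : ∀ {t p : ℕ}, t < TP → p ≤ N → ∀ v : V, v.2 < gP * m →
      X z xP kP up dn m N TP (t * N + p) (c v) = Y z xP kP up dn m t p (c v) :=
    fun ht hp v hv => X_at hE hZ hm hN0 ht hp (hc2 v hv)
  have hdm : ∀ τ, τ / N * N + τ % N = τ := fun τ => Nat.div_add_mod' τ N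
  -- times before the end
  have hsplit : ∀ τ, τ < TP * N → τ / N < TP ∧ τ % N < N := fun τ hτ =>
    ⟨Nat.div_lt_of_lt_mul (by rwa [mul_comm] at hτ), Nat.mod_lt _ hN0⟩
  -- every time up to the end lies in a closed window
  have hwin : 0 < TP → ∀ τ, τ ≤ TP * N → ∃ t p, t < TP ∧ p ≤ N ∧ τ = t * N + p := by
    intro hTP τ hτ
    rcases Nat.lt_or_ge τ (TP * N) with h | h
    · exact ⟨τ / N, τ % N, (hsplit τ h).1, (hsplit τ h).2.le, (hdm τ).symm⟩
    · refine ⟨TP - 1, N, by omega, le_rfl, ?_⟩
      obtain rfl : τ = TP * N := by omega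
      rw [← Nat.succ_mul, Nat.succ_eq_add_one, Nat.sub_add_cancel hTP]
  have h01 : ∀ τ v, X z xP kP up dn m N TP τ (c v) = 0 ∨ X z xP kP up dn m N TP τ (c v) = 1 := by
    intro τ v
    unfold X
    split_ifs
    · exact Y_01 hP.h01 hZ _ _ _
    · exact hP.h01 _ _
  have hfst : ∀ v : V, (c v).1 = (v.1, v.2 / m) := fun v => rfl
  have hXstep : ∀ τ, τ < TP * N → ∀ v : V, v.2 < gP * m →
      X z xP kP up dn m N TP τ (c v) = Y z xP kP up dn m (τ / N) (τ % N) (c v) ∧
      X z xP kP up dn m N TP (τ + 1) (c v) = Y z xP kP up dn m (τ / N) (τ % N + 1) (c v) := by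
    intro τ hτ v hv
    obtain ⟨h1, h2⟩ := hsplit τ hτ
    constructor
    · have := hX h1 h2.le v hv
      rwa [hdm] at this
    · have := hX h1 (p := τ % N + 1) h2 v hv
      rwa [← add_assoc, hdm] at this
  refine ⟨fun τ v => X z xP kP up dn m N TP τ (c v), fun τ => kP (τ / N) * DB + kz (τ % N),
    h01, ?_, ?_, ?_, ?_, ?_, ?_, ?_⟩
  · intro v hv
    rcases Nat.eq_zero_or_pos TP with hTP | hTP
    · unfold X
      rw [if_neg (by rw [hTP]; exact Nat.not_lt_zero _), hTP, hP.ini _ (hc2 v hv), hfst]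
    · have := hX hTP (Nat.zero_le N) v hv
      rw [zero_mul, zero_add] at this
      rw [this, Y_zero hE hZ hm hTP, hP.ini _ (hc2 v hv), hfst]
  · intro v hv
    unfold X
    rw [Nat.mul_div_cancel _ hN0, if_neg (by omega), hP.fin _ (hc2 v hv), hfst]
  · intro τ hτ
    obtain ⟨ht, hp⟩ := hsplit τ hτ
    obtain ⟨u, d, hu, hd, a1, a2, a3, a4, a5⟩ := hZ.exch (τ % N) hp
    set t := τ / N with ht'
    set p := τ % N with hp'
    let role : Bool → V := fun b => if b then dn t else up t
    have hud' := hE.ne ht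
    obtain ⟨eu, heu⟩ := R_surj hm u.1 (kP t) hu
    obtain ⟨ed, hed⟩ := R_surj hm d.1 (kP t) hd
    have hYrole : ∀ (b : Bool) (e : Fin g × Fin β) (p : ℕ),
        Y z xP kP up dn m t p (role b, e) = z p (b, R m b (kP t) e) := by
      intro b e p
      cases b
      · exact if_pos rfl
      · exact (if_neg hud'.symm).trans (if_pos rfl)
    have hrg : ∀ b, (role b).2 < gP := by
      intro b
      cases b
      · exact hE.ug t ht
      · exact hE.dg t ht
    obtain ⟨vu, hvu, hvu'⟩ := cw_surj hm hm0 (w := (role u.1, eu)) (hrg u.1)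
    obtain ⟨vd, hvd, hvd'⟩ := cw_surj hm hm0 (w := (role d.1, ed)) (hrg d.1)
    have hcu : c vu = (role u.1, eu) := hvu'
    have hcd : c vd = (role d.1, ed) := hvd'
    have hu' : ((u.1, R m u.1 (kP t) eu) : V) = u := by rw [heu]
    have hd' : ((d.1, R m d.1 (kP t) ed) : V) = d := by rw [hed]
    refine ⟨vu, vd, hvu, hvd, ?_, ?_, ?_, ?_, ?_⟩
    · rw [(hXstep τ hτ vu hvu).1, hcu, ← ht', ← hp', hYrole, hu', a1]
    · rw [(hXstep τ hτ vu hvu).2, hcu, ← ht', ← hp', hYrole, hu', a2]
    · rw [(hXstep τ hτ vd hvd).1, hcd, ← ht', ← hp', hYrole, hd', a3]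
    · rw [(hXstep τ hτ vd hvd).2, hcd, ← ht', ← hp', hYrole, hd', a4]
    · intro v hv n1 n2
      rw [(hXstep τ hτ v hv).1, (hXstep τ hτ v hv).2, ← ht', ← hp']
      by_cases hr : ∃ b, (c v).1 = role b
      · obtain ⟨b, hb⟩ := hr
        have hcv : c v = (role b, (c v).2) := by rw [← hb]
        rw [hcv, hYrole, hYrole]
        refine a5 _ (R_lt2 hm _ _ _ _) ?_ ?_
        · intro h
          apply n1
          apply cw_inj (g := g) (β := β) (hm := hm) (hm0 := hm0)
          show c v = c vu
          have hb1 : b = u.1 := congrArg Prod.fst h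
          subst hb1
          have h2 : R m u.1 (kP t) (c v).2 = u.2 := congrArg Prod.snd h
          rw [hcv, hcu, R_inj hm (h2.trans heu.symm)]
        · intro h
          apply n2
          apply cw_inj (g := g) (β := β) (hm := hm) (hm0 := hm0)
          show c v = c vd
          have hb1 : b = d.1 := congrArg Prod.fst h
          subst hb1
          have h2 : R m d.1 (kP t) (c v).2 = d.2 := congrArg Prod.snd h
          rw [hcv, hcd, R_inj hm (h2.trans hed.symm)]
      · have r1 : (c v).1 ≠ up t := fun h => hr ⟨false, h⟩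
        have r2 : (c v).1 ≠ dn t := fun h => hr ⟨true, h⟩
        unfold Y
        rw [if_neg r1, if_neg r2, if_neg r1, if_neg r2]
  · intro u v hu hv hpos τ τ' hττ hτ' hneg
    dsimp only at hneg ⊢
    rcases Nat.eq_zero_or_pos TP with hTP | hTP
    · subst hTP
      have : τ = 0 := by omega
      have : τ' = 0 := by omega
      subst_vars
      omega
    obtain ⟨t, p, ht, hp, rfl⟩ := hwin hTP τ (by omega)
    obtain ⟨t', p', ht', hp', rfl⟩ := hwin hTP τ' hτ'
    have hle : t < t' ∨ (t = t' ∧ p ≤ p') ∨ (t = t' + 1 ∧ p = 0 ∧ p' = N) := by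
      rcases Nat.lt_trichotomy t t' with h | h | h
      · exact Or.inl h
      · subst h
        exact Or.inr (Or.inl ⟨rfl, by omega⟩)
      · right; right
        have h3 : (t' + 1) * N ≤ t * N := Nat.mul_le_mul_right _ h
        rw [add_mul, one_mul] at h3
        have h4 : t * N = t' * N + N := by omega
        have h5 : t = t' + 1 := by
          have : t * N = (t' + 1) * N := by rw [add_mul, one_mul]; exact h4
          exact Nat.eq_of_mul_eq_mul_right hN0 this
        exact ⟨h5, by omega, by omega⟩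
    rw [hX ht hp v hv, hX ht hp u hu] at hneg
    rw [hX ht' hp' v hv, hX ht' hp' u hu]
    have b1 := Y_01 (up := up) (dn := dn) (kP := kP) hP.h01 hZ t p (c v)
    have b2 := Y_01 (up := up) (dn := dn) (kP := kP) hP.h01 hZ t p (c u)
    have b3 := Y_01 (up := up) (dn := dn) (kP := kP) hP.h01 hZ t' p' (c v)
    have b4 := Y_01 (up := up) (dn := dn) (kP := kP) hP.h01 hZ t' p' (c u)
    by_contra hcon
    rcases hle with hle | hle | ⟨rfl, rfl, rfl⟩
    · exact Y_pair hP hE hβ hQ hm hZ (hc2 u hu) (hc2 v hv) (cw_order hpos) ht ht' hp hp'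
        (Or.inl hle) (by omega) (by omega) (by omega) (by omega)
    · exact Y_pair hP hE hβ hQ hm hZ (hc2 u hu) (hc2 v hv) (cw_order hpos) ht ht' hp hp'
        (Or.inr hle) (by omega) (by omega) (by omega) (by omega)
    · rw [Y_zero hE hZ hm ht, Y_zero hE hZ hm ht] at hneg
      rw [Y_last hE hZ hm ht' _ (hc2 v hv), Y_last hE hZ hm ht' _ (hc2 u hu)] at hcon
      omega
  · intro u v hu hv hs hpos hJ
    exact absurd trivial hJ
  · intro τ hτ
    obtain ⟨h1, h2⟩ := hsplit τ hτ
    have a1 := hP.clk _ h1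
    have a2 := hZ.clk _ h2
    calc kP (τ / N) * DB + kz (τ % N) < kP (τ / N) * DB + DB := by omega
      _ = (kP (τ / N) + 1) * DB := by ring
      _ ≤ DP * DB := Nat.mul_le_mul_right _ a1
  · intro τ τ' hττ hτ' v hv c1 c2
    obtain ⟨ht, hp⟩ := hsplit τ (by omega)
    obtain ⟨ht', hp'⟩ := hsplit τ' hτ'
    rw [(hXstep τ (by omega) v hv).1, (hXstep τ (by omega) v hv).2] at c1
    rw [(hXstep τ' hτ' v hv).1, (hXstep τ' hτ' v hv).2] at c2
    have hrole : ∀ t p, t < TP → Y z xP kP up dn m t p (c v) ≠ Y z xP kP up dn m t (p + 1) (c v) →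
        ∃ b : Bool, xP t (c v).1 ≠ xP (t + 1) (c v).1 ∧ ((c v).1 = if b then dn t else up t) ∧
          z p (b, R m b (kP t) (c v).2) ≠ z (p + 1) (b, R m b (kP t) (c v).2) := by
      intro t p ht hne
      unfold Y at hne
      split_ifs at hne with h1 h2
      · exact ⟨false, by rw [h1, hE.u0 t ht, hE.u1 t ht]; norm_num, by simpa using h1, hne⟩
      · exact ⟨true, by rw [h2, hE.d0 t ht, hE.d1 t ht]; norm_num, by simpa using h2, hne⟩
      · exact absurd rfl hne
    obtain ⟨b, r1, r2, r3⟩ := hrole _ _ ht c1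
    obtain ⟨b', r1', r2', r3'⟩ := hrole _ _ ht' c2
    have hdiv : τ / N ≤ τ' / N := Nat.div_le_div_right hττ.le
    rcases Nat.eq_or_lt_of_le hdiv with heq | hlt
    · have hmod : τ % N < τ' % N := by
        have h1 := hdm τ
        have h2 := hdm τ'
        rw [← heq] at h2
        omega
      rw [← heq] at r2' r3' ⊢
      have hbb : b = b' := by
        have hud := hE.ne ht
        cases b <;> cases b' <;> simp at r2 r2' ⊢
        · exact hud (r2.symm.trans r2')
        · exact hud (r2'.symm.trans r2)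
      subst hbb
      have := hZ.inc _ _ hmod hp' _ (R_lt2 hm _ _ _ _) r3 r3'
      omega
    · have a1 := hP.inc _ _ hlt ht' _ (hc2 v hv) r1 r1'
      have a2 := hZ.clk _ hp
      calc kP (τ / N) * DB + kz (τ % N) < kP (τ / N) * DB + DB := by omega
        _ = (kP (τ / N) + 1) * DB := by ring
        _ ≤ kP (τ' / N) * DB := Nat.mul_le_mul_right _ a1
        _ ≤ _ := by omega

end comp

end LevelLat
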