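import Pool.Agent.LevelLat.Num

/-!
# The lower bound
-/

namespace LevelLat

open Real LevelLower

theorem level_bound {α φ δ : ℝ} (h : Good α φ δ) {n s : ℕ} (hs : 1 ≤ s) (hn : exp α ≤ n) :
    (n : ℝ) / 2 * exp φ ≤ Psi s n := by
  obtain ⟨g, T, D, hZ, hg, hT, hD, h1, h2, h3⟩ := h
  have g0 : (0 : ℝ) < g := by exact_mod_cast hg
  have h4 : (2 * g : ℝ) ≤ n := by
    have := Real.exp_le_exp.2 h1
    rw [Real.exp_log (by positivity)] at this
    linarith
  have h5 : 2 * g ≤ n := by exact_mod_cast h4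
  set M := n / (2 * g) with hM
  have hM1 : 1 ≤ M := (Nat.one_le_div_iff (by omega)).2 h5
  have h6 : n < 2 * g * (M + 1) := by
    have := Nat.lt_div_mul_add (a := n) (b := 2 * g) (by omega)
    rw [← hM] at this
    calc n < M * (2 * g) + 2 * g := this
      _ = 2 * g * (M + 1) := by ring
  have h7 : 2 * (M * g) ≤ n := by
    calc 2 * (M * g) = M * (2 * g) := by ring
      _ ≤ n := Nat.div_mul_le_self _ _
  have hMT : 0 < M * T := by positivity
  have h8 : HasSys2 s n (M * T) :=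
    (((hZ.copies M).toSys hMT).le le_rfl hMT h7).mono hs
  have h9 : ((M * T : ℕ) : ℝ) ≤ Psi s n := by exact_mod_cast h8.Psi_le
  refine le_trans ?_ h9
  push_cast
  have h10 : (n : ℝ) < 2 * g * (M + 1) := by exact_mod_cast h6
  have h11 : (1 : ℝ) ≤ M := by exact_mod_cast hM1
  have h12 : (n : ℝ) / 2 ≤ M * (2 * g) := by nlinarith
  calc (n : ℝ) / 2 * exp φ ≤ (M * (2 * g)) * exp φ := by gcongr
    _ = M * (2 * g * exp φ) := by ring
    _ ≤ M * T := by gcongr

theorem log_PP {i : ℕ} (hi : 1 ≤ i) : ((i : ℝ) - 1) ^ 2 / 2 * log 2 ≤ log (PP i) := by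
  have hl2 : 0 < log 2 := Real.log_pos (by norm_num)
  induction i, hi using Nat.le_induction with
  | base =>
    have : (0 : ℝ) ≤ log (PP 1) := Real.log_nonneg (by exact_mod_cast PP_pos 1)
    simpa using this
  | succ i hi ih =>
    have hPP : (0 : ℝ) < PP i := by exact_mod_cast PP_pos i
    rw [PP_succ]
    push_cast
    rw [Real.log_mul (by positivity) (by positivity)]
    have h1 : (i : ℝ) * log 2 ≤ log (2 ^ i + 1) := by
      rw [← Real.log_pow]
      exact Real.log_le_log (by positivity) (by linarith)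
    nlinarith

/-- the parameter `α` of the iteration -/
noncomputable def al (i : ℕ) : ℝ := PP i * 2 ^ i * (log 8 + i * log 9)

theorem al_ge (i : ℕ) : (PP i : ℝ) * 2 ^ i ≤ al i := by
  have hPP : (0 : ℝ) < PP i := by exact_mod_cast PP_pos i
  have h8 : 1 ≤ log 8 := by
    rw [show (8 : ℝ) = 2 ^ 3 by norm_num, Real.log_pow]
    have := Real.log_two_gt_d9
    push_cast
    linarith
  have h9 : 0 < log 9 := Real.log_pos (by norm_num)
  unfold al
  have : (1 : ℝ) ≤ log 8 + i * log 9 := by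
    have : 0 ≤ (i : ℝ) * log 9 := by positivity
    linarith
  calc (PP i : ℝ) * 2 ^ i = PP i * 2 ^ i * 1 := by ring
    _ ≤ _ := by gcongr

theorem al_step (i : ℕ) : al (i + 1) ≤ PP i * 4 ^ (i + 1) * (log 9 * (i + 2)) := by
  have hPP : (0 : ℝ) < PP i := by exact_mod_cast PP_pos i
  have h89 : log 8 ≤ log 9 := Real.log_le_log (by norm_num) (by norm_num)
  have h8 : 0 < log 8 := Real.log_pos (by norm_num)
  have h9 : 0 < log 9 := Real.log_pos (by norm_num)
  unfold al
  rw [PP_succ]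
  push_cast
  have e1 : (2 : ℝ) ^ i + 1 ≤ 2 ^ (i + 1) := by
    rw [pow_succ]
    have : (1 : ℝ) ≤ 2 ^ i := one_le_pow₀ (by norm_num)
    linarith
  have e2 : (4 : ℝ) ^ (i + 1) = 2 ^ (i + 1) * 2 ^ (i + 1) := by
    rw [← mul_pow]
    norm_num
  calc (PP i : ℝ) * (2 ^ i + 1) * 2 ^ (i + 1) * (log 8 + (i + 1) * log 9)
      ≤ PP i * 2 ^ (i + 1) * 2 ^ (i + 1) * (log 9 + (i + 1) * log 9) := by gcongr
    _ = PP i * 4 ^ (i + 1) * (log 9 * (i + 2)) := by
        rw [e2]
        ring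

/-- choice of the level of the iteration -/
theorem exists_level {L : ℝ} (hL : log 8 ≤ L) : ∃ i, al i ≤ L ∧ L < al (i + 1) := by
  have hex : ∃ j, L < al j := by
    obtain ⟨j, hj⟩ := pow_unbounded_of_one_lt L (by norm_num : (1 : ℝ) < 2)
    refine ⟨j, hj.trans_le (le_trans ?_ (al_ge j))⟩
    have : (1 : ℝ) ≤ PP j := by exact_mod_cast PP_pos j
    have hp : (0 : ℝ) < 2 ^ j := by positivity
    nlinarith
  classical
  have h0 : Nat.find hex ≠ 0 := by
    intro h
    have := Nat.find_spec hex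
    rw [h] at this
    unfold al at this
    simp [PP] at this
    linarith
  obtain ⟨i, hi⟩ := Nat.exists_eq_succ_of_ne_zero h0
  refine ⟨i, ?_, ?_⟩
  · have := Nat.find_min hex (m := i) (by omega)
    exact not_lt.1 this
  · have := Nat.find_spec hex
    rwa [hi] at this

theorem level_lower {L x : ℝ} (hx : 0 ≤ x) (hL : exp (x ^ 2) = L) {i : ℕ} (h1 : al i ≤ L) :
    (i : ℝ) ≤ 1 + 1.7 * x := by
  rcases Nat.eq_zero_or_pos i with h0 | h0
  · subst h0
    have : 0 ≤ 1.7 * x := by positivity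
    push_cast
    linarith
  · have h2 := log_PP h0
    have hPP : (0 : ℝ) < PP i := by exact_mod_cast PP_pos i
    have h3 : (PP i : ℝ) ≤ L := by
      have := al_ge i
      have hp : (1 : ℝ) ≤ 2 ^ i := one_le_pow₀ (by norm_num)
      nlinarith
    have h4 : log (PP i) ≤ x ^ 2 := by
      have := Real.log_le_log hPP h3
      rwa [← hL, Real.log_exp] at this
    have h5 := Real.log_two_gt_d9
    have h6 : ((i : ℝ) - 1) ^ 2 ≤ (1.7 * x) ^ 2 := by nlinarith [sq_nonneg ((i : ℝ) - 1)]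
    have h7 := abs_le_of_sq_le_sq' h6 (by positivity)
    linarith [h7.2]

/-- the analytic core: the exponent of the chosen level -/
theorem exists_X : ∃ X : ℝ, 3 ≤ X ∧ ∀ x ≥ X, ∀ L : ℝ, exp (x ^ 2) = L → ∀ i : ℕ, al i ≤ L →
    L < al (i + 1) → L * exp (-3 * x) + log 2 ≤ log (9 / 8) * PP i := by
  set c : ℝ := log (9 / 8) / log 9 * exp (-2.8) with hc
  have h98 : 0 < log (9 / 8 : ℝ) := Real.log_pos (by norm_num)
  have h9 : 0 < log (9 : ℝ) := Real.log_pos (by norm_num)
  have hc0 : 0 < c := by positivity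
  refine ⟨max 3 (9.4 / (0.18 * c)), le_max_left _ _, ?_⟩
  intro x hx L hL i h1 h2
  have hx3 : 3 ≤ x := (le_max_left _ _).trans hx
  have hxc : 9.4 / (0.18 * c) ≤ x := (le_max_right _ _).trans hx
  have hi := level_lower (by linarith) hL h1
  have hL0 : 0 < L := by rw [← hL]; exact exp_pos _
  have hPP : (0 : ℝ) < PP i := by exact_mod_cast PP_pos i
  -- the growth inequality
  have hA : 2 * (3 + 1.7 * x) ≤ c * exp (0.6 * x) := by
    have e1 : (0.6 * x) ^ 2 / 2 ≤ exp (0.6 * x) := by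
      have := Real.quadratic_le_exp_of_nonneg (x := 0.6 * x) (by positivity)
      have : 0 ≤ 0.6 * x := by positivity
      linarith
    have e2 : 9.4 ≤ x * (0.18 * c) := (div_le_iff₀ (by positivity)).1 hxc
    calc 2 * (3 + 1.7 * x) ≤ 9.4 * x := by linarith
      _ ≤ (x * (0.18 * c)) * x := by gcongr
      _ = c * ((0.6 * x) ^ 2 / 2) := by ring
      _ ≤ c * exp (0.6 * x) := by gcongr
  have h3 := h2.trans_le (al_step i)
  have h4 : (4 : ℝ) ^ (i + 1) ≤ exp (2.8 + 2.4 * x) := by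
    have e1 : (4 : ℝ) ^ (i + 1) = exp (((i : ℝ) + 1) * log 4) := by
      rw [← Real.rpow_natCast, Real.rpow_def_of_pos (by norm_num)]
      push_cast
      ring_nf
    rw [e1]
    apply Real.exp_le_exp.2
    have e2 : log 4 ≤ 1.3864 := by
      rw [show (4 : ℝ) = 2 ^ 2 by norm_num, Real.log_pow]
      have := Real.log_two_lt_d9
      push_cast
      linarith
    have e3 : 0 ≤ log (4 : ℝ) := Real.log_nonneg (by norm_num)
    calc ((i : ℝ) + 1) * log 4 ≤ (2 + 1.7 * x) * log 4 :=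
          mul_le_mul_of_nonneg_right (by linarith) e3
      _ ≤ (2 + 1.7 * x) * 1.3864 := by gcongr
      _ ≤ 2.8 + 2.4 * x := by linarith
  have h5 : L ≤ PP i * exp (2.8 + 2.4 * x) * (log 9 * (3 + 1.7 * x)) := by
    refine h3.le.trans ?_
    have e4 : log 9 * ((i : ℝ) + 2) ≤ log 9 * (3 + 1.7 * x) :=
      mul_le_mul_of_nonneg_left (by linarith) h9.le
    exact mul_le_mul (mul_le_mul_of_nonneg_left h4 hPP.le) e4 (by positivity) (by positivity)
  -- conclusion
  have h6 : 2 * (L * exp (-3 * x)) ≤ log (9 / 8) * PP i := by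
    have e1 : exp (2.8 + 2.4 * x) * exp (-3 * x) * exp (0.6 * x) = exp 2.8 := by
      rw [← Real.exp_add, ← Real.exp_add]
      congr 1
      ring
    have e2 : c * log 9 * exp 2.8 = log (9 / 8) := by
      rw [hc]
      have : exp (-2.8 : ℝ) * exp 2.8 = 1 := by
        rw [← Real.exp_add]
        norm_num
      calc log (9 / 8) / log 9 * exp (-2.8) * log 9 * exp 2.8
          = log (9 / 8) / log 9 * log 9 * (exp (-2.8) * exp 2.8) := by ring
        _ = log (9 / 8) := by
          rw [this, mul_one, div_mul_cancel₀ _ h9.ne']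
    calc 2 * (L * exp (-3 * x))
        ≤ 2 * ((PP i * exp (2.8 + 2.4 * x) * (log 9 * (3 + 1.7 * x))) * exp (-3 * x)) := by
          gcongr
      _ = PP i * log 9 * (exp (2.8 + 2.4 * x) * exp (-3 * x)) * (2 * (3 + 1.7 * x)) := by ring
      _ ≤ PP i * log 9 * (exp (2.8 + 2.4 * x) * exp (-3 * x)) * (c * exp (0.6 * x)) := by gcongr
      _ = PP i * (c * log 9 * (exp (2.8 + 2.4 * x) * exp (-3 * x) * exp (0.6 * x))) := by ring
      _ = log (9 / 8) * PP i := by
          rw [e1, e2]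
          ring
  have h7 : log 2 ≤ L * exp (-3 * x) := by
    rw [← hL, ← Real.exp_add]
    have e1 : 0 ≤ x ^ 2 + -3 * x := by nlinarith
    have e2 : (1 : ℝ) ≤ exp (x ^ 2 + -3 * x) := Real.one_le_exp e1
    have e3 := Real.log_two_lt_d9
    linarith
  linarith

/-- **Lower bound for the complexity of a level**, for every `s ≥ 1`. -/
theorem main_lower : ∃ n₀ : ℕ, ∀ n ≥ n₀, ∀ s ≥ 1,
    (n : ℝ) ^ (1 + exp (-3 * √(log (log n)))) ≤ Psi s n := by
  obtain ⟨X, hX3, hX⟩ := exists_X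
  obtain ⟨n₀, hn₀⟩ := exists_nat_ge (exp (exp (X ^ 2)))
  refine ⟨n₀, fun n hn s hs => ?_⟩
  have hn1 : exp (exp (X ^ 2)) ≤ n := hn₀.trans (by exact_mod_cast hn)
  have hnpos : (0 : ℝ) < n := (exp_pos _).trans_le hn1
  have hL1 : exp (X ^ 2) ≤ log n := (Real.le_log_iff_exp_le hnpos).2 hn1
  have hLpos : 0 < log n := (exp_pos _).trans_le hL1
  have hLL : X ^ 2 ≤ log (log n) := (Real.le_log_iff_exp_le hLpos).2 hL1
  set x := √(log (log n)) with hx
  have hxX : X ≤ x := by
    rw [hx]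
    exact Real.le_sqrt_of_sq_le hLL
  have hx2 : exp (x ^ 2) = log n := by
    rw [hx, Real.sq_sqrt (le_trans (by positivity) hLL), Real.exp_log hLpos]
  have h8 : log 8 ≤ log n := by
    have e1 : (9 : ℝ) ≤ X ^ 2 := by nlinarith
    have e2 : X ^ 2 + 1 ≤ exp (X ^ 2) := Real.add_one_le_exp _
    have e3 : log 8 ≤ 3 := by
      rw [show (8 : ℝ) = 2 ^ 3 by norm_num, Real.log_pow]
      have := Real.log_two_lt_d9
      push_cast
      linarith
    linarith
  obtain ⟨i, hi1, hi2⟩ := exists_level h8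
  have h9 := hX x hxX (log n) hx2 i hi1 hi2
  have h10 := level_bound (s := s) (n := n) (good_iter i) hs (by
    have : exp (al i) ≤ exp (log n) := Real.exp_le_exp.2 hi1
    rwa [Real.exp_log hnpos] at this)
  refine le_trans ?_ h10
  rw [Real.rpow_add hnpos, Real.rpow_one, Real.rpow_def_of_pos hnpos]
  have h11 : exp (log n * exp (-3 * x)) ≤ exp (log (9 / 8) * PP i) / 2 := by
    rw [le_div_iff₀ (by norm_num)]
    calc exp (log n * exp (-3 * x)) * 2 = exp (log n * exp (-3 * x) + log 2) := by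
          rw [Real.exp_add, Real.exp_log (by norm_num)]
      _ ≤ _ := Real.exp_le_exp.2 h9
  calc (n : ℝ) * exp (log n * exp (-3 * x)) ≤ n * (exp (log (9 / 8) * PP i) / 2) := by gcongr
    _ = n / 2 * exp (log (9 / 8) * PP i) := by ring

end LevelLat
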