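import Pool.Agent.LevelLat.Basic
import Pool.Agent.LevelLower.Realise2

/-!
# Block exchange systems are exchange systems in the sense of `LevelLower`
-/

namespace LevelLat

open LevelLower

theorem ph_of_nup {f : ℕ → ℤ} {T q : ℕ} (hf : Nup f T) (hq : (-1 : ℤ) ^ q = 1) :
    Ph f 0 (T + 1) q (q + 1) := by
  classical
  refine ⟨fun t => if ∃ t' ≤ t, f t' < 0 then q + 1 else q, ?_, ?_, ?_⟩
  · intro t t' htt
    dsimp only
    by_cases h1 : ∃ t'' ≤ t, f t'' < 0
    · have h2 : ∃ t'' ≤ t', f t'' < 0 := by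
        obtain ⟨s, hs, hs'⟩ := h1
        exact ⟨s, hs.trans htt, hs'⟩
      rw [if_pos h1, if_pos h2]
    · rw [if_neg h1]
      split_ifs <;> omega
  · intro t
    dsimp only
    split_ifs <;> omega
  · intro t _ ht
    dsimp only
    by_cases h1 : ∃ t'' ≤ t, f t'' < 0
    · rw [if_pos h1, pow_succ, hq]
      obtain ⟨s, hs, hs'⟩ := h1
      have := hf s t hs (by omega) hs'
      omega
    · rw [if_neg h1, hq, one_mul]
      by_contra hc
      exact h1 ⟨t, le_rfl, by omega⟩

theorem ph_of_nup_neg {f : ℕ → ℤ} {T q : ℕ} (hf : Nup (fun t => - f t) T)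
    (hq : (-1 : ℤ) ^ q = -1) : Ph f 0 (T + 1) q (q + 1) := by
  have h : Ph (fun t => - f t) 0 (T + 1) (q + 1) (q + 1 + 1) :=
    ph_of_nup hf (by rw [pow_succ, hq]; norm_num)
  have := h.neg
  simpa using this

theorem HasZig.toSys {g T D : ℕ} {J : ℕ → ℕ → Prop} (h : HasZig g T D J) (hT : 0 < T) :
    HasSys2 1 (2 * g) T := by
  obtain ⟨z, k, hz⟩ := h
  have hc : ∀ c : Bool × Fin g, ((c.1, (c.2 : ℕ)) : V).2 < g := fun c => c.2.2
  -- the pair condition
  have hpr : ∀ a b : Bool × Fin g, pos (a.1, (a.2 : ℕ)) < pos (b.1, (b.2 : ℕ)) →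
      Nup (fun t => z t (b.1, (b.2 : ℕ)) - z t (a.1, (a.2 : ℕ))) T :=
    fun a b hp => hz.pr _ _ (hc a) (hc b) hp
  have hpair : ∀ a b : Bool × Fin g, ∀ q, (a.1 = true → pos (b.1, (b.2 : ℕ)) < pos (a.1, (a.2 : ℕ))) →
      (a.1 = false → pos (a.1, (a.2 : ℕ)) < pos (b.1, (b.2 : ℕ))) →
      (-1 : ℤ) ^ q = (if a.1 then 1 else -1) →
      Ph (fun t => z t (a.1, (a.2 : ℕ)) - z t (b.1, (b.2 : ℕ))) 0 (T + 1) q (q + 1) := by
    intro a b q h1 h2 hq
    cases ha : a.1
    · rw [ha] at hq
      have := hpr a b (h2 ha)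
      rw [ha] at this
      refine ph_of_nup_neg ?_ (by simpa using hq)
      simpa using this
    · rw [ha] at hq
      have := hpr b a (h1 ha)
      rw [ha] at this
      exact ph_of_nup this (by simpa using hq)
  refine HasSys2.of_fintype (C := Bool × Fin g) (K := g) (by simp)
    (w := ⟨fun _ => 0, fun _ => T, fun c => g - c.2⟩)
    (x := fun t c => z t (c.1, (c.2 : ℕ))) ⟨?_, ?_, ?_, ?_, ?_, ?_⟩
  · intro t c
    exact hz.h01 _ _
  · intro c
    exact ⟨hT, le_rfl⟩
  · intro t ht
    obtain ⟨u, d, hu, hd, h1, h2, h3, h4, h5⟩ := hz.exch t ht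
    refine ⟨(u.1, ⟨u.2, hu⟩), (d.1, ⟨d.2, hd⟩), ⟨Nat.zero_le _, ht⟩, ⟨Nat.zero_le _, ht⟩,
      h1, h2, h3, h4, ?_⟩
    intro c n1 n2
    refine h5 _ (hc c) ?_ ?_
    · intro h
      apply n1
      have e1 : c.1 = u.1 := congrArg Prod.fst h
      have e2 : (c.2 : ℕ) = u.2 := congrArg Prod.snd h
      ext
      · exact e1
      · exact e2
    · intro h
      apply n2
      have e1 : c.1 = d.1 := congrArg Prod.fst h
      have e2 : (c.2 : ℕ) = d.2 := congrArg Prod.snd h
      ext
      · exact e1
      · exact e2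
  · intro t ht
    dsimp only
    have key : ∀ t ≤ T, (Finset.univ.filter (fun c : Bool × Fin g => True ∧
        z t (c.1, (c.2 : ℕ)) = 0)).card = g := by
      intro t
      induction t with
      | zero =>
        intro _
        have : (Finset.univ.filter (fun c : Bool × Fin g => True ∧ z 0 (c.1, (c.2 : ℕ)) = 0)) =
            Finset.univ.image (fun i : Fin g => ((false, i) : Bool × Fin g)) := by
          ext ⟨b, i⟩
          simp only [true_and, Finset.mem_filter, Finset.mem_univ, Finset.mem_image]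
          rw [hz.ini _ i.2]
          cases b <;> simp
        rw [this, Finset.card_image_of_injective _ (fun i j h => congrArg Prod.snd h)]
        simp
      | succ t ih =>
        intro ht
        refine Eq.trans ?_ (ih (by omega))
        obtain ⟨u, d, hu, hd, h1, h2, h3, h4, h5⟩ := hz.exch t (by omega)
        refine card_step (fun _ : Bool × Fin g => True)
          (y := fun c => z t (c.1, (c.2 : ℕ))) (z := fun c => z (t + 1) (c.1, (c.2 : ℕ)))
          (a := (u.1, ⟨u.2, hu⟩)) (b := (d.1, ⟨d.2, hd⟩)) trivial trivial h1 h2 h3 h4 ?_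
        intro c n1 n2
        refine h5 _ (hc c) ?_ ?_
        · intro h
          apply n1
          have e1 : c.1 = u.1 := congrArg Prod.fst h
          have e2 : (c.2 : ℕ) = u.2 := congrArg Prod.snd h
          ext
          · exact e1
          · exact e2
        · intro h
          apply n2
          have e1 : c.1 = d.1 := congrArg Prod.fst h
          have e2 : (c.2 : ℕ) = d.2 := congrArg Prod.snd h
          ext
          · exact e1
          · exact e2
    refine Eq.trans (congrArg Finset.card ?_) (key t ht.le)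
    ext c
    simp only [Finset.mem_filter, Finset.mem_univ, true_and]
    constructor
    · intro h
      exact h.2.2
    · intro h
      exact ⟨Nat.zero_le _, ht, h⟩
  · intro a b hab q hq
    dsimp only at hq ⊢
    rw [min_self]
    have hrk : g - (a.2 : ℕ) < g - b.2 := by
      rcases hab with h | ⟨_, h⟩
      · exact absurd h (lt_irrefl _)
      · exact h
    have hab2 : (b.2 : ℕ) < a.2 := by omega
    refine hpair a b q ?_ ?_ ?_
    · intro ha
      by_cases hs : b.1 = a.1
      · rw [hs, pos_mk_lt]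
        exact Or.inl ⟨ha, hab2⟩
      · exact (pos_cross (u := (b.1, (b.2 : ℕ))) (v := (a.1, (a.2 : ℕ))) hs).2 ha
    · intro ha
      by_cases hs : a.1 = b.1
      · rw [← hs, pos_mk_lt]
        exact Or.inr ⟨ha, hab2⟩
      · refine (pos_cross (u := (a.1, (a.2 : ℕ))) (v := (b.1, (b.2 : ℕ))) hs).2 ?_
        rw [ha] at hs
        simpa using hs
    · rw [hz.ini _ (hc a)] at hq
      cases ha : a.1
      · rw [ha] at hq
        simp only [Bool.false_eq_true, if_false] at hq ⊢
        exact neg_one_pow_eq_neg_one_of2 hq.le (by norm_num)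
      · rw [ha] at hq
        simp only [if_true] at hq ⊢
        exact neg_one_pow_eq_one_of2 hq.le (by norm_num)
  · intro a b hne _ hrk q hq
    dsimp only at hq hrk ⊢
    rw [min_self]
    have hab2 : (a.2 : ℕ) = b.2 := by
      have := a.2.2
      have := b.2.2
      omega
    have hs : a.1 ≠ b.1 := by
      intro h
      apply hne
      ext
      · exact h
      · exact hab2
    refine hpair a b q ?_ ?_ ?_
    · intro ha
      exact (pos_cross (u := (b.1, (b.2 : ℕ))) (v := (a.1, (a.2 : ℕ))) hs.symm).2 ha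
    · intro ha
      refine (pos_cross (u := (a.1, (a.2 : ℕ))) (v := (b.1, (b.2 : ℕ))) hs).2 ?_
      rw [ha] at hs
      simpa using hs
    · rw [hz.ini _ (hc a), hz.ini _ (hc b)] at hq
      cases ha : a.1 <;> cases hb : b.1
      · exact absurd (ha.trans hb.symm) hs
      · rw [ha, hb] at hq
        simp only [Bool.false_eq_true, if_false, if_true] at hq ⊢
        exact neg_one_pow_eq_neg_one_of2 hq (by norm_num)
      · rw [ha, hb] at hq
        simp only [Bool.false_eq_true, if_false, if_true] at hq ⊢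
        exact neg_one_pow_eq_one_of2 hq (by norm_num)
      · exact absurd (ha.trans hb.symm) hs

end LevelLat
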