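import Pool.Agent.LevelLat.Comp
import Pool.Agent.LevelLat.Base
import Pool.Agent.LevelLat.ToSys
import Pool.Agent.LevelLower.Numerics2

/-!
# Iterating the composition
-/

namespace LevelLat

open Real

/-- logarithmic form of the parameters of a system -/
def Good (α φ δ : ℝ) : Prop := ∃ g T D : ℕ, HasZig g T D (fun _ _ => True) ∧ 0 < g ∧ 0 < T ∧
  0 < D ∧ log (2 * g) ≤ α ∧ 2 * g * exp φ ≤ T ∧ log D ≤ δ

theorem Good.mono {α α' φ δ : ℝ} (h : Good α φ δ) (hα : α ≤ α') : Good α' φ δ := by
  obtain ⟨g, T, D, h1, h2, h3, h4, h5, h6, h7⟩ := h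
  exact ⟨g, T, D, h1, h2, h3, h4, h5.trans hα, h6, h7⟩

theorem Good.comp {α φ δ α' φ' δ' : ℝ} (h : Good α φ δ) (h' : Good α' φ' δ') :
    Good (α + 2 * α' + δ) (φ + φ') (δ + δ') := by
  obtain ⟨gP, TP, DP, hP, a1, a2, a3, a4, a5, a6⟩ := h
  obtain ⟨g, T, DB, hB, b1, b2, b3, b4, b5, b6⟩ := h'
  have hM : 0 < 2 * g * DP := by positivity
  refine ⟨_, _, _, hP.comp hB b1 b2 b3 hM, ?_, ?_, ?_, ?_, ?_, ?_⟩
  · have : 0 < 2 * g * DP + 2 * (g - 1) * DP := by omega
    positivity
  · have : 0 < 2 * g * DP * T := by positivity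
    have : 0 < g * (g - 1) * DP + 2 * g * DP * T + g * (g - 1) * DP := by omega
    positivity
  · positivity
  all_goals
    have hle : 2 * g * DP + 2 * (g - 1) * DP ≤ 4 * g * DP := by
      have : 2 * (g - 1) * DP ≤ 2 * g * DP :=
        Nat.mul_le_mul_right _ (Nat.mul_le_mul_left _ (by omega))
      calc 2 * g * DP + 2 * (g - 1) * DP ≤ 2 * g * DP + 2 * g * DP := by omega
        _ = 4 * g * DP := by ring
    have hle' : ((2 * g * DP + 2 * (g - 1) * DP : ℕ) : ℝ) ≤ 4 * g * DP := by exact_mod_cast hle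
    have gP0 : (0 : ℝ) < gP := by exact_mod_cast a1
    have g0 : (0 : ℝ) < g := by exact_mod_cast b1
    have D0 : (0 : ℝ) < DP := by exact_mod_cast a3
    have DB0 : (0 : ℝ) < DB := by exact_mod_cast b3
  · have hX : (0 : ℝ) < ((2 * g * DP + 2 * (g - 1) * DP : ℕ) : ℝ) := by
      have : 0 < 2 * g * DP + 2 * (g - 1) * DP := by omega
      exact_mod_cast this
    calc log (2 * ((gP * (g * (2 * g * DP + 2 * (g - 1) * DP)) : ℕ) : ℝ))
        ≤ log ((2 * gP) * (2 * g) ^ 2 * DP) := by
          apply Real.log_le_log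
          · rw [Nat.cast_mul, Nat.cast_mul]
            positivity
          · rw [Nat.cast_mul, Nat.cast_mul]
            calc 2 * ((gP : ℝ) * (g * ((2 * g * DP + 2 * (g - 1) * DP : ℕ) : ℝ)))
                ≤ 2 * ((gP : ℝ) * (g * (4 * g * DP))) := by gcongr
              _ = (2 * gP) * (2 * g) ^ 2 * DP := by ring
      _ = log (2 * gP) + 2 * log (2 * g) + log DP := by
          rw [Real.log_mul (by positivity) (by positivity),
            Real.log_mul (by positivity) (by positivity), Real.log_pow]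
          push_cast
          ring
      _ ≤ α + 2 * α' + δ := by linarith
  · have e1 : ((TP * (g * (g - 1) * DP + 2 * g * DP * T + g * (g - 1) * DP) : ℕ) : ℝ) ≥
        (TP : ℝ) * (2 * g * DP * T) := by
      have : TP * (2 * g * DP * T) ≤
          TP * (g * (g - 1) * DP + 2 * g * DP * T + g * (g - 1) * DP) :=
        Nat.mul_le_mul_left _ (by omega)
      exact_mod_cast this
    refine le_trans ?_ e1
    rw [Nat.cast_mul, Nat.cast_mul, Real.exp_add]
    calc 2 * ((gP : ℝ) * (g * ((2 * g * DP + 2 * (g - 1) * DP : ℕ) : ℝ))) *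
          (exp φ * exp φ')
        ≤ 2 * ((gP : ℝ) * (g * (4 * g * DP))) * (exp φ * exp φ') := by gcongr
      _ = (2 * gP * exp φ) * (2 * g * exp φ') * (2 * g * DP) := by ring
      _ ≤ TP * T * (2 * g * DP) := by gcongr
      _ = TP * (2 * g * DP * T) := by ring
  · rw [Nat.cast_mul, Real.log_mul (by positivity) (by positivity)]
    linarith

/-- the chain -/
theorem Good.chain {α φ δ : ℝ} (h : Good α φ δ) (j : ℕ) :
    Good ((2 * j + 1) * α + j * (j + 1) / 2 * δ) ((j + 1) * φ) ((j + 1) * δ) := by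
  induction j with
  | zero => simpa using h
  | succ j ih =>
    have := ih.comp h
    convert this using 1
    · push_cast
      ring
    · push_cast
      ring
    · push_cast
      ring

theorem good_base : Good (log 8) (log (9 / 8)) (log 9) := by
  refine ⟨4, 9, 9, hasZig_base, by norm_num, by norm_num, by norm_num, ?_, ?_, ?_⟩
  · norm_num
  · rw [Real.exp_log (by norm_num)]
    norm_num
  · norm_num

/-- the product of the numbers `2 ^ j + 1` -/
def PP (i : ℕ) : ℕ := ∏ j ∈ Finset.range i, (2 ^ j + 1)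

theorem PP_succ (i : ℕ) : PP (i + 1) = PP i * (2 ^ i + 1) := by
  unfold PP
  rw [Finset.prod_range_succ]

theorem PP_pos (i : ℕ) : 0 < PP i := by
  induction i with
  | zero => simp [PP]
  | succ i ih =>
    rw [PP_succ]
    positivity

theorem good_iter (i : ℕ) : Good (PP i * 2 ^ i * (log 8 + i * log 9)) (log (9 / 8) * PP i)
    (log 9 * PP i) := by
  induction i with
  | zero => simpa [PP] using good_base
  | succ i ih =>
    have h := ih.chain (2 ^ i)
    have h9 : 0 < log 9 := Real.log_pos (by norm_num)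
    have h8 : 0 < log 8 := Real.log_pos (by norm_num)
    have hPP : (0 : ℝ) < PP i := by exact_mod_cast PP_pos i
    have e2 : (((2 ^ i : ℕ) : ℝ) + 1) * (log (9 / 8) * PP i) = log (9 / 8) * PP (i + 1) := by
      rw [PP_succ]
      push_cast
      ring
    have e3 : (((2 ^ i : ℕ) : ℝ) + 1) * (log 9 * PP i) = log 9 * PP (i + 1) := by
      rw [PP_succ]
      push_cast
      ring
    rw [e2, e3] at h
    refine h.mono ?_
    rw [PP_succ]
    push_cast
    have hp : (0 : ℝ) < 2 ^ i := by positivity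
    have key : (PP i : ℝ) * (2 ^ i + 1) * 2 ^ (i + 1) * (log 8 + (i + 1) * log 9) -
        ((2 * 2 ^ i + 1) * (PP i * 2 ^ i * (log 8 + i * log 9)) +
          2 ^ i * (2 ^ i + 1) / 2 * (log 9 * PP i)) =
        PP i * 2 ^ i * (log 8 + i * log 9) + 3 / 2 * (PP i * 2 ^ i * (2 ^ i + 1) * log 9) := by
      rw [pow_succ]
      ring
    have : 0 ≤ PP i * 2 ^ i * (log 8 + i * log 9) +
        3 / 2 * (PP i * 2 ^ i * (2 ^ i + 1) * log 9) := by positivity
    linarith

end LevelLat
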